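import Pool.Agent.Lib.MP_0c183c_P9A.Equations

/-! # Bounded order implies that Pfaffian graphs are recognised in polynomial time -/

set_option autoImplicit false

namespace Pool.Agent.Lib.MP_0c183c_P9A

open Pool.Agent.Lib.PolyTree Pool.Agent.Lib.FOLFP Matrix Finset Polynomial Turing
open Pool.Agent.Lib.MP_0c183c_h75B (IsAltOn)
open Pool.Agent.Lib.MP_0c183c_co (mask detS IsPM InG cr lin IsPfaffian pfaffian_iff
  isPfaffian_of_small)

theorem CGen.mono {c c' n : ℕ} (h : c ≤ c') {G : SimpleGraph (Fin n)} {K : Type} [Field K]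
    {A : Matrix (Fin n) (Fin n) K} (hA : CGen c' G A) : CGen c G A :=
  fun k hk => hA k (hk.trans h)

theorem cov_iff {n : ℕ} (H : List (Fin n × Fin n)) (v : Fin n) :
    inV (H.map fun p => (min (p.1 : ℕ) p.2, max (p.1 : ℕ) p.2)) v = true ↔ Cov H v := by
  unfold inV Cov
  rw [List.any_eq_true]
  constructor
  · rintro ⟨q, hq, h⟩
    obtain ⟨p, hp, rfl⟩ := List.mem_map.1 hq
    refine ⟨p, hp, ?_⟩
    simp only [Bool.or_eq_true, decide_eq_true_eq] at h
    rcases le_total (p.1 : ℕ) p.2 with h1 | h1
    · rw [min_eq_left h1, max_eq_right h1] at h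
      rcases h with h | h
      · exact Or.inl (Fin.ext h)
      · exact Or.inr (Fin.ext h)
    · rw [min_eq_right h1, max_eq_left h1] at h
      rcases h with h | h
      · exact Or.inr (Fin.ext h)
      · exact Or.inl (Fin.ext h)
  · rintro ⟨p, hp, h⟩
    refine ⟨_, List.mem_map.2 ⟨p, hp, rfl⟩, ?_⟩
    simp only [Bool.or_eq_true, decide_eq_true_eq]
    rcases le_total (p.1 : ℕ) p.2 with h1 | h1
    · rw [min_eq_left h1, max_eq_right h1]
      rcases h with rfl | rfl
      · exact Or.inl rfl
      · exact Or.inr rfl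
    · rw [min_eq_right h1, max_eq_left h1]
      rcases h with rfl | rfl
      · exact Or.inr rfl
      · exact Or.inl rfl

theorem inP_iff {n : ℕ} (H : List (Fin n × Fin n)) (u v : Fin n) :
    inP (H.map fun p => (min (p.1 : ℕ) p.2, max (p.1 : ℕ) p.2)) u v = true ↔
      ((u, v) ∈ H ∨ (v, u) ∈ H) := by
  unfold inP
  rw [List.any_eq_true]
  constructor
  · rintro ⟨q, hq, h⟩
    obtain ⟨p, hp, rfl⟩ := List.mem_map.1 hq
    simp only [Bool.or_eq_true, Bool.and_eq_true, decide_eq_true_eq] at h
    have key : (p.1 = u ∧ p.2 = v) ∨ (p.1 = v ∧ p.2 = u) := by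
      rcases le_total (p.1 : ℕ) p.2 with h1 | h1
      · rw [min_eq_left h1, max_eq_right h1] at h
        rcases h with h | h
        · exact Or.inl ⟨Fin.ext h.1, Fin.ext h.2⟩
        · exact Or.inr ⟨Fin.ext h.1, Fin.ext h.2⟩
      · rw [min_eq_right h1, max_eq_left h1] at h
        rcases h with h | h
        · exact Or.inr ⟨Fin.ext h.2, Fin.ext h.1⟩
        · exact Or.inl ⟨Fin.ext h.2, Fin.ext h.1⟩
    obtain ⟨p1, p2⟩ := p
    rcases key with ⟨h1, h2⟩ | ⟨h1, h2⟩
    · left
      simp only at h1 h2
      rw [← h1, ← h2]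
      exact hp
    · right
      simp only at h1 h2
      rw [← h1, ← h2]
      exact hp
  · intro h
    rcases h with h | h
    · refine ⟨_, List.mem_map.2 ⟨_, h, rfl⟩, ?_⟩
      simp only [Bool.or_eq_true, Bool.and_eq_true, decide_eq_true_eq]
      rcases le_total (u : ℕ) v with h1 | h1
      · left
        exact ⟨min_eq_left h1, max_eq_right h1⟩
      · right
        exact ⟨min_eq_right h1, max_eq_left h1⟩
    · refine ⟨_, List.mem_map.2 ⟨_, h, rfl⟩, ?_⟩
      simp only [Bool.or_eq_true, Bool.and_eq_true, decide_eq_true_eq]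
      rcases le_total (v : ℕ) u with h1 | h1
      · right
        exact ⟨min_eq_left h1, max_eq_right h1⟩
      · left
        exact ⟨min_eq_right h1, max_eq_left h1⟩

theorem delN_eq {n : ℕ} {R : Type} [Zero R] [One R] (H : List (Fin n × Fin n))
    (A : Matrix (Fin n) (Fin n) R) :
    delN (H.map fun p => (min (p.1 : ℕ) p.2, max (p.1 : ℕ) p.2)) A = delH H A := by
  ext u v
  unfold delN delH
  by_cases h1 : Cov H u ∨ Cov H v
  · rw [if_pos h1, if_pos]
    · by_cases h2 : (u, v) ∈ H ∨ (v, u) ∈ H
      · rw [if_pos h2, if_pos ((inP_iff H u v).2 h2)]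
      · rw [if_neg h2, if_neg (fun h' => h2 ((inP_iff H u v).1 h'))]
    · rw [Bool.or_eq_true, cov_iff, cov_iff]
      exact h1
  · rw [if_neg h1, if_neg]
    rw [Bool.or_eq_true, cov_iff, cov_iff]
    exact h1

/-- The algorithm decides whether a graph is Pfaffian. -/
theorem accept_iff {c s₀ : ℕ} (hBO : BOK KK c s₀) (I : Graph) :
    accept (c + 1) s₀ I.encode = true ↔ IsPfaffian I.G := by
  unfold accept
  rw [nOf_encode, Bool.or_eq_true, Bool.or_eq_true, decide_eq_true_eq]
  by_cases hn : I.n ≤ 1
  · constructor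
    · intro _
      exact isPfaffian_of_small hn I.G
    · intro _
      exact Or.inl (Or.inl hn)
  have hn' : 1 < I.n := by omega
  by_cases hunp : ∃ u : Fin I.n, unp (run (c + 1) I.encode).2 u = true
  · obtain ⟨u, hu⟩ := hunp
    constructor
    · intro _
      rw [pfaffian_iff]
      refine ⟨fun _ _ => 0, fun m hm hmG => ?_⟩
      exact (no_pm (c + 1) I hn' (by omega) hu hm hmG).elim
    · intro _
      left
      right
      rw [List.any_eq_true]
      exact ⟨u, List.mem_range.2 u.2, hu⟩
  push Not at hunp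
  have hall : ∀ u : Fin I.n, unp (run (c + 1) I.encode).2 u = false := by
    intro u
    exact Bool.eq_false_iff.2 (hunp u)
  have hany : ¬ ((List.range I.n).any fun u => unp (run (c + 1) I.encode).2 u) = true := by
    rw [List.any_eq_true]
    rintro ⟨u, hu, h⟩
    have := hall ⟨u, List.mem_range.1 hu⟩
    rw [this] at h
    exact Bool.noConfusion h
  have hinv := inv_run (c + 1) I hn'
  obtain ⟨hon, hdet, hgen⟩ := paired (c + 1) I hn' hall
  set st := run (c + 1) I.encode with hst
  set P := blk (stM I st) with hP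
  have hPmap : blk ((stM I st).map φK) = P.map φK := rfl
  rw [hPmap] at hon hdet hgen
  set t := (tests (c + 1) I.n).length with ht
  have hrep : RepM (DD (I.n + I.n) t) I.n
      (matL (DD (I.n + I.n) t) I.encode I.n st.1 st.2) P := by
    intro a b
    exact repM_mat (DD (I.n + I.n) t) I.encode I.n st.1 st.2 (Fin.castAdd I.n a) (Fin.castAdd I.n b)
  have hdeg : ∀ a b, (P a b).natDegree ≤ MM (I.n + I.n) t := by
    intro a b
    exact natDegree_entS hinv.1 _ _ _ _ _
  have hDD : I.n * MM (I.n + I.n) t < DD (I.n + I.n) t := by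
    unfold DD
    have : I.n * MM (I.n + I.n) t ≤ (I.n + I.n) * MM (I.n + I.n) t :=
      Nat.mul_le_mul_right _ (by omega)
    omega
  have hPs : ∀ a b, P a b = P b a := by
    intro a b
    apply φK_inj
    exact hon.symm a b
  have hP0 : ∀ a, P a a = 0 := by
    intro a
    apply φK_inj
    rw [map_zero]
    exact hon.diag a
  have hPsupp : ∀ a b, P a b ≠ 0 → I.G.Adj a b := by
    intro a b h
    apply hon.supp
    rw [Matrix.map_apply, ne_eq, map_eq_zero_iff _ φK_inj]
    exact h
  rw [solv_iff (by omega) hDD hrep hdeg]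
  have hHs : ∀ H ∈ tup (edgesOf I.encode) s₀, ∀ p ∈ H, p.1 < p.2 := by
    intro H hH p hp
    obtain ⟨_, h2⟩ := mem_tup.1 hH
    have := h2 p hp
    obtain ⟨p1, p2⟩ := p
    obtain ⟨_, _, h3, _⟩ := (mem_edgesOf I p1 p2).1 this
    exact h3
  have hdelon : ∀ H ∈ tup (edgesOf I.encode) s₀, (∀ a b, delN H P a b = delN H P b a) ∧
      (∀ a, delN H P a a = 0) ∧ (∀ a b, delN H P a b ≠ 0 → I.G.Adj a b) := by
    intro H hH
    refine ⟨fun a b => ?_, fun a => ?_, fun a b h => ?_⟩
    · unfold delN
      rw [Bool.or_comm, inP_symm, hPs]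
    · unfold delN
      split_ifs with h1 h2
      · exfalso
        unfold inP at h2
        rw [List.any_eq_true] at h2
        obtain ⟨p, hp, h3⟩ := h2
        have := hHs H hH p hp
        simp only [Bool.or_eq_true, Bool.and_eq_true, decide_eq_true_eq, or_self] at h3
        omega
      · rfl
      · exact hP0 a
    · unfold delN at h
      split_ifs at h with h1 h2
      · unfold inP at h2
        rw [List.any_eq_true] at h2
        obtain ⟨p, hp, h3⟩ := h2
        obtain ⟨_, h4⟩ := mem_tup.1 hH
        have h5 := h4 p hp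
        obtain ⟨p1, p2⟩ := p
        obtain ⟨hi, hj, _, h6⟩ := (mem_edgesOf I p1 p2).1 h5
        simp only [Bool.or_eq_true, Bool.and_eq_true, decide_eq_true_eq] at h3
        rcases h3 with ⟨rfl, rfl⟩ | ⟨rfl, rfl⟩
        · exact h6
        · exact h6.symm
      · exact absurd rfl h
      · exact hPsupp a b h
  have hiff : (∃ x : Fin I.n → Fin I.n → ZMod 2, ∀ H ∈ tup (edgesOf I.encode) s₀,
      detS (delN H P) = ∑ i, ∑ k, if i < k then C (x i k) * (mask i k (delN H P)).det else 0) ↔
      IsPfaffian I.G := by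
    constructor
    · rintro ⟨x, hx⟩
      rw [pfaffian_iff]
      refine ⟨x, ?_⟩
      by_contra hcon
      push Not at hcon
      obtain ⟨m, hm, hmG, hne⟩ := hcon
      obtain ⟨H, hH, hlen, hne2⟩ := hBO I.n I.G (P.map φK) hon hdet
        (hgen.mono (Nat.le_succ c)) x ⟨m, hm, hmG, hne⟩
      apply hne2
      rw [← T_delH (fx KK x) hH]
      set H' := H.map fun p => (min (p.1 : ℕ) p.2, max (p.1 : ℕ) p.2) with hH'
      have hmem : H' ∈ tup (edgesOf I.encode) s₀ := by
        rw [mem_tup]
        refine ⟨by rw [hH', List.length_map]; exact hlen, ?_⟩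
        intro q hq
        obtain ⟨p, hp, rfl⟩ := List.mem_map.1 hq
        rw [mem_edgesOf]
        have hadj := hH.adj p hp
        have hne3 : (p.1 : ℕ) ≠ p.2 := fun h => hadj.ne (Fin.ext h)
        rcases lt_or_gt_of_ne hne3 with h1 | h1
        · rw [min_eq_left h1.le, max_eq_right h1.le]
          exact ⟨p.1.2, p.2.2, h1, hadj⟩
        · rw [min_eq_right h1.le, max_eq_left h1.le]
          exact ⟨p.2.2, p.1.2, h1, hadj.symm⟩
      have h1 := (eqn_iff (delN H' P) (hdelon H' hmem).1 (hdelon H' hmem).2.1 x).1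
        (hx H' hmem)
      have h2 := T_map φK (delN H' P) x
      rw [h1, map_zero, delN_map, delN_eq] at h2
      exact h2.symm
    · intro h
      obtain ⟨x, hx⟩ := pfaffian_iff.1 h
      refine ⟨x, fun H hH => ?_⟩
      rw [eqn_iff _ (hdelon H hH).1 (hdelon H hH).2.1]
      unfold MP_0c183c_co.T
      refine sum_eq_zero fun m hm => ?_
      change C (cr m + lin x m) * ∏ v, delN H P v (m v) = 0
      by_cases hmG : InG I.G m
      · rw [hx m (MP_0c183c_co.mem_pms.1 hm) hmG, CharTwo.add_self_eq_zero, map_zero, zero_mul]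
      · unfold InG at hmG
        push Not at hmG
        obtain ⟨v, hv⟩ := hmG
        rw [prod_eq_zero (mem_univ v), mul_zero]
        by_contra hne
        exact hv ((hdelon H hH).2.2 _ _ hne)
  rw [hiff]
  constructor
  · rintro ((h | h) | h)
    · exact absurd h hn
    · exact absurd h hany
    · exact h
  · intro h
    exact Or.inr h

open Classical in
/-- **Reduction.** If the order of the functions `cr + lin x` at generic points over the field of
rational functions over the field with two elements is bounded, then Pfaffian graphs are recognised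
by a deterministic Turing machine in polynomial time. -/
theorem machine_of_bok (h : ∃ c s₀, BOK (FractionRing (ZMod 2)[X]) c s₀) :
    ∃ M : TM2ComputableInPolyTime Graph.encode id (fun I : Graph => [decide (IsPfaffian I.G)]),
      ∀ k, Finite (M.tm.Γ k) := by
  obtain ⟨c, s₀, hBO⟩ := h
  exact graph_machine (fun I => IsPfaffian I.G) (accept (c + 1) s₀) (by fun_prop)
    (accept_iff hBO)

open Classical in
theorem machine_of_bo (h : ∃ c s₀, BO c s₀) :
    ∃ M : TM2ComputableInPolyTime Graph.encode id (fun I : Graph => [decide (IsPfaffian I.G)]),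
      ∀ k, Finite (M.tm.Γ k) := by
  obtain ⟨c, s₀, hBO⟩ := h
  exact machine_of_bok ⟨c, s₀, hBO _⟩

end Pool.Agent.Lib.MP_0c183c_P9A
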