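import Pool.Agent.Lib.MP_0c183c_co.CharTwo
import Pool.Agent.Lib.MP_0c183c_h75B.Core

/-!
# The algebraic statement (BO) used by the algorithm

For a matching `H` of `G` and a function `f` on perfect matchings,
`cH f H A = ∑ over the perfect matchings m containing H of f m * ∏ over the vertices v not covered by H of A v (m v)`.
In characteristic two, with `A` symmetric, this is the square of the derivative of order `|H|` of
the generating function of `f`.
-/

set_option autoImplicit false

namespace Pool.Agent.Lib.MP_0c183c_P9A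

open Finset
open Pool.Agent.Lib.MP_0c183c_co (IsPM InG pms cr lin T mem_pms)
open Pool.Agent.Lib.MP_0c183c_h75B (IsAltOn)

/-- The minors of size at most `c` of the inverse of `A` which vanish, vanish for all nonsingular
symmetric matrices with zero diagonal supported on the graph, over all fields of characteristic
two. -/
def CGen (c : ℕ) {n : ℕ} (G : SimpleGraph (Fin n)) {K : Type} [Field K]
    (A : Matrix (Fin n) (Fin n) K) : Prop :=
  ∀ k ≤ c, ∀ x x' : Fin k → Fin n, (A⁻¹.submatrix x x').det = 0 →
    ∀ (L : Type) [Field L] [CharP L 2] (B : Matrix (Fin n) (Fin n) L), IsAltOn G B →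
      B.det ≠ 0 → (B⁻¹.submatrix x x').det = 0

/-- The vertex `v` is covered by the edges in the list `H`. -/
def Cov {n : ℕ} (H : List (Fin n × Fin n)) (v : Fin n) : Prop := ∃ p ∈ H, p.1 = v ∨ p.2 = v

instance {n : ℕ} (H : List (Fin n × Fin n)) : DecidablePred (Cov H) := fun _ => by
  unfold Cov
  infer_instance

/-- The list `H` is a matching of the graph `G`. -/
structure IsMat {n : ℕ} (G : SimpleGraph (Fin n)) (H : List (Fin n × Fin n)) : Prop where
  adj : ∀ p ∈ H, G.Adj p.1 p.2
  disj : H.Pairwise fun p q => p.1 ≠ q.1 ∧ p.1 ≠ q.2 ∧ p.2 ≠ q.1 ∧ p.2 ≠ q.2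

/-- The (square of the) derivative of order `|H|` of the generating function of `f`. -/
def cH {n : ℕ} {R : Type*} [CommRing R] (f : Equiv.Perm (Fin n) → R) (H : List (Fin n × Fin n))
    (A : Matrix (Fin n) (Fin n) R) : R :=
  ∑ m ∈ (pms n).filter (fun m => ∀ p ∈ H, m p.1 = p.2),
    f m * ∏ v ∈ univ.filter (fun v => ¬ Cov H v), A v (m v)

/-- The function on perfect matchings: number of crossings plus a linear form, modulo two. -/
def fx (K : Type*) [Field K] [CharP K 2] {n : ℕ} (x : Fin n → Fin n → ZMod 2)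
    (m : Equiv.Perm (Fin n)) : K := ZMod.castHom (dvd_refl 2) K (cr m + lin x m)

/-- **Bounded order** over the field `K`. If `A` is a nonsingular `c`-generic weight matrix of the
graph `G` and the function `cr + lin x` is not zero on the perfect matchings of `G`, then its order
at `A` is at most `s₀`. -/
def BOK (K : Type) [Field K] [CharP K 2] (c s₀ : ℕ) : Prop :=
  ∀ (n : ℕ) (G : SimpleGraph (Fin n)) (A : Matrix (Fin n) (Fin n) K), IsAltOn G A →
    A.det ≠ 0 → CGen c G A →
    ∀ x : Fin n → Fin n → ZMod 2, (∃ m, IsPM m ∧ InG G m ∧ cr m ≠ lin x m) →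
    ∃ H, IsMat G H ∧ H.length ≤ s₀ ∧ cH (fx K x) H A ≠ 0

/-- **Bounded order** over all fields of characteristic two. -/
def BO (c s₀ : ℕ) : Prop := ∀ (K : Type) [Field K] [CharP K 2], BOK K c s₀

/-- The edges in `H` get weight one, the other edges meeting them weight zero. -/
def delH {n : ℕ} {R : Type*} [Zero R] [One R] (H : List (Fin n × Fin n))
    (A : Matrix (Fin n) (Fin n) R) : Matrix (Fin n) (Fin n) R := fun u v =>
  if Cov H u ∨ Cov H v then (if (u, v) ∈ H ∨ (v, u) ∈ H then 1 else 0) else A u v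

theorem IsMat.eq_of_mem {n : ℕ} {G : SimpleGraph (Fin n)} {H : List (Fin n × Fin n)}
    (h : IsMat G H) {p q : Fin n × Fin n} (hp : p ∈ H) (hq : q ∈ H) {v : Fin n}
    (h1 : p.1 = v ∨ p.2 = v) (h2 : q.1 = v ∨ q.2 = v) : p = q := by
  by_contra hne
  have : Std.Symm fun p q : Fin n × Fin n =>
      p.1 ≠ q.1 ∧ p.1 ≠ q.2 ∧ p.2 ≠ q.1 ∧ p.2 ≠ q.2 := by
    constructor
    rintro p q ⟨a, b, c, d⟩
    exact ⟨a.symm, c.symm, b.symm, d.symm⟩
  obtain ⟨a, b, c, d⟩ := h.disj.forall hp hq hne
  rcases h1 with h1 | h1 <;> rcases h2 with h2 | h2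
  · exact a (h1.trans h2.symm)
  · exact b (h1.trans h2.symm)
  · exact c (h1.trans h2.symm)
  · exact d (h1.trans h2.symm)

/-- The derivative is a weighted sum over the perfect matchings for the modified matrix. -/
theorem T_delH {n : ℕ} {R : Type*} [CommRing R] {G : SimpleGraph (Fin n)}
    (f : Equiv.Perm (Fin n) → R) {H : List (Fin n × Fin n)} (hH : IsMat G H)
    (A : Matrix (Fin n) (Fin n) R) : T f (delH H A) = cH f H A := by
  unfold T cH
  rw [sum_filter]
  refine sum_congr rfl fun m hm => ?_
  have hm' := mem_pms.1 hm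
  split_ifs with h
  · congr 1
    rw [← prod_filter_mul_prod_filter_not univ (fun v => ¬ Cov H v)]
    have h2 : ∏ v ∈ univ.filter (fun v => ¬ ¬ Cov H v), delH H A v (m v) = 1 := by
      refine prod_eq_one fun v hv => ?_
      rw [mem_filter, not_not] at hv
      unfold delH
      rw [if_pos (Or.inl hv.2), if_pos]
      obtain ⟨p, hp, hp1 | hp1⟩ := hv.2
      · left
        rw [← hp1, h p hp]
        exact hp
      · right
        rw [← hp1, ← h p hp, (hm' p.1).2, h p hp]
        exact hp
    rw [h2, mul_one]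
    refine prod_congr rfl fun v hv => ?_
    rw [mem_filter] at hv
    unfold delH
    rw [if_neg]
    rintro (h3 | h3)
    · exact hv.2 h3
    · apply hv.2
      obtain ⟨p, hp, hp1 | hp1⟩ := h3
      · refine ⟨p, hp, Or.inr ?_⟩
        rw [← h p hp, hp1, (hm' v).2]
      · refine ⟨p, hp, Or.inl ?_⟩
        apply m.injective
        rw [h p hp, hp1]
  · push Not at h
    obtain ⟨p, hp, hne⟩ := h
    rw [prod_eq_zero (mem_univ p.1), mul_zero]
    unfold delH
    rw [if_pos (Or.inl ⟨p, hp, Or.inl rfl⟩), if_neg]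
    rintro (h1 | h1)
    · have := hH.eq_of_mem hp h1 (v := p.1) (Or.inl rfl) (Or.inl rfl)
      exact hne (congrArg Prod.snd this).symm
    · have := hH.eq_of_mem hp h1 (v := p.1) (Or.inl rfl) (Or.inr rfl)
      have h2 := congrArg Prod.snd this
      exact (hH.adj p hp).ne h2.symm

end Pool.Agent.Lib.MP_0c183c_P9A
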