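import Pool.Agent.Lib.MP_0c183c_P9A.Gauss

/-! # The algorithm -/

set_option autoImplicit false

namespace Pool.Agent.Lib.MP_0c183c_P9A

open Pool.Agent.Lib.PolyTree Pool.Agent.Lib.FOLFP

/-- Lists of at most `c` elements of a list. -/
def tup {β : Type} (E : List β) : ℕ → List (List β)
  | 0 => [[]]
  | c + 1 => [] :: E.flatMap fun p => (tup E c).map fun l => p :: l

theorem mem_tup {β : Type} {E : List β} {c : ℕ} {l : List β} :
    l ∈ tup E c ↔ l.length ≤ c ∧ ∀ p ∈ l, p ∈ E := by
  induction c generalizing l with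
  | zero =>
    rw [tup, List.mem_singleton]
    constructor
    · rintro rfl
      simp
    · rintro ⟨h, -⟩
      exact List.length_eq_zero_iff.1 (Nat.le_zero.1 h)
  | succ c ih =>
    rw [tup, List.mem_cons, List.mem_flatMap]
    constructor
    · rintro (rfl | ⟨p, hp, h⟩)
      · simp
      · obtain ⟨l', hl', rfl⟩ := List.mem_map.1 h
        obtain ⟨h1, h2⟩ := ih.1 hl'
        refine ⟨by simpa using h1, ?_⟩
        intro q hq
        rcases List.mem_cons.1 hq with rfl | hq
        · exact hp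
        · exact h2 q hq
    · rintro ⟨h1, h2⟩
      cases l with
      | nil => left; rfl
      | cons p l =>
        right
        refine ⟨p, h2 p (by simp), List.mem_map.2 ⟨l, ih.2 ⟨?_, ?_⟩, rfl⟩⟩
        · simpa using h1
        · exact fun q hq => h2 q (by simp [hq])

/-- The vertex is in no pair. -/
def unp (σ : List (ℕ × ℕ)) (u : ℕ) : Bool :=
  σ.all fun p => !(decide (p.1 = u) || decide (p.2 = u))

/-- The pair or its reverse is in the list. -/
def inP (σ : List (ℕ × ℕ)) (a b : ℕ) : Bool :=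
  σ.any fun p => (decide (p.1 = a) && decide (p.2 = b)) || (decide (p.1 = b) && decide (p.2 = a))

/-- Adjacency in the extended graph: vertex `n + u` is the pendant of `u`, or is matched with
`n + v` if `u` and `v` form a pair. -/
def gadj (w : List Sym) (n : ℕ) (σ : List (ℕ × ℕ)) (a b : ℕ) : Bool :=
  if a < n then (if b < n then adjOf w a b else decide (b = n + a) && unp σ a)
  else (if b < n then decide (a = n + b) && unp σ b
    else !(decide (a = b)) && inP σ (a - n) (b - n))

/-- Exponent of the weight of an edge. -/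
def lk (y : List (ℕ × ℕ × ℕ)) (a b : ℕ) : Option ℕ :=
  (y.find? fun t => decide (t.1 = min a b) && decide (t.2.1 = max a b)).map fun t => t.2.2

/-- Entry of the weight matrix. -/
def ent (D : ℕ) (w : List Sym) (n : ℕ) (y : List (ℕ × ℕ × ℕ)) (σ : List (ℕ × ℕ)) (a b : ℕ) :
    List Bool :=
  if gadj w n σ a b = true then
    (lk y a b).elim (if a < n ∧ b < n then [] else mono D 0) (fun k => mono D k)
  else []

/-- Weight matrix. -/
def matL (D : ℕ) (w : List Sym) (n : ℕ) (y : List (ℕ × ℕ × ℕ)) (σ : List (ℕ × ℕ)) : LM :=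
  tab (n + n) (ent D w n y σ)

/-- Rows are replaced by unit vectors. -/
def repL (D m : ℕ) (l : List (ℕ × ℕ)) (A : LM) : LM := tab m fun a b =>
  (l.find? fun p => decide (p.2 = a)).elim (gp A a b)
    (fun p => if b = p.1 then mono D 0 else [])

/-- The test of a minor. -/
def nzT (D m : ℕ) (A : LM) (l : List (ℕ × ℕ)) : Bool := nzP (detL D m (repL D m l A))

/-- Number of candidate weights. -/
def MM (m t : ℕ) : ℕ := m * t + 1

/-- Length of the bit lists. -/
def DD (m t : ℕ) : ℕ := m * MM m t + 1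

/-- Candidates for a change of weight. -/
def cands (w : List Sym) (n : ℕ) (σ : List (ℕ × ℕ)) (M : ℕ) : List (ℕ × ℕ × ℕ) :=
  ((posL (n + n) (n + n)).filter fun p => decide (p.1 < p.2) && gadj w n σ p.1 p.2).flatMap
    fun p => (List.range M).map fun k => (p.1, p.2, k)

/-- The second matrix is better. -/
def impr (D m : ℕ) (T : List (List (ℕ × ℕ))) (A A' : LM) : Bool :=
  (T.all fun l => !(nzT D m A l) || nzT D m A' l) &&
    (T.any fun l => !(nzT D m A l) && nzT D m A' l)

/-- The tests. -/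
def tests (c n : ℕ) : List (List (ℕ × ℕ)) := tup (posL (n + n) (n + n)) c

/-- One step. -/
def step (c : ℕ) (w : List Sym) (st : List (ℕ × ℕ × ℕ) × List (ℕ × ℕ)) :
    List (ℕ × ℕ × ℕ) × List (ℕ × ℕ) :=
  ((cands w (nOf w) st.2 (MM (nOf w + nOf w) (tests c (nOf w)).length)).find? fun t =>
      impr (DD (nOf w + nOf w) (tests c (nOf w)).length) (nOf w + nOf w) (tests c (nOf w))
        (matL (DD (nOf w + nOf w) (tests c (nOf w)).length) w (nOf w) st.1 st.2)
        (matL (DD (nOf w + nOf w) (tests c (nOf w)).length) w (nOf w) (t :: st.1) st.2)).elim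
    (((posL (nOf w) (nOf w)).find? fun p => decide (p.1 < p.2) && unp st.2 p.1 && unp st.2 p.2 &&
      nzT (DD (nOf w + nOf w) (tests c (nOf w)).length) (nOf w + nOf w)
        (matL (DD (nOf w + nOf w) (tests c (nOf w)).length) w (nOf w) st.1 st.2)
        [(nOf w + p.1, nOf w + p.2)]).elim st (fun p => (st.1, p :: st.2)))
    (fun t => (t :: st.1, st.2))

/-- The final state. -/
def run (c : ℕ) (w : List Sym) : List (ℕ × ℕ × ℕ) × List (ℕ × ℕ) :=
  (List.range ((nOf w + 1) * ((tests c (nOf w)).length + 1))).foldl (fun st _ => step c w st)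
    ([], [])

/-- The vertex is covered. -/
def inV (H : List (ℕ × ℕ)) (a : ℕ) : Bool := H.any fun p => decide (p.1 = a) || decide (p.2 = a)

/-- The edges in `H` get weight one, all other edges meeting them are deleted. -/
def matH (D n : ℕ) (H : List (ℕ × ℕ)) (A : LM) : LM := tab n fun a b =>
  if (inV H a || inV H b) = true then (if inP H a b = true then mono D 0 else [])
  else gp A a b

/-- Delete the edges between `{i, k}` and the rest. -/
def maskL (n i k : ℕ) (A : LM) : LM := tab n fun u v =>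
  if ((decide (u = i) || decide (u = k)) ^^ (decide (v = i) || decide (v = k))) = true then []
  else gp A u v

/-- The sum of determinants giving the crossing polynomial. -/
def detSL (D n : ℕ) (A : LM) : List Bool :=
  sumP D ((List.range n).map fun i => sumP D ((List.range n).map fun j =>
    sumP D ((List.range n).map fun k => sumP D ((List.range n).map fun l =>
      if i < j ∧ j < k ∧ k < l then detL D n (maskL n i k (maskL n j l A)) else []))))

/-- The vector of a pair. -/
def vecP (D n : ℕ) (Hs : List (List (ℕ × ℕ))) (A : LM) (p : ℕ × ℕ) : LB :=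
  if p.1 < p.2 then Hs.map fun H => detL D n (maskL n p.1 p.2 (matH D n H A)) else []

/-- The target vector. -/
def vecS (D n : ℕ) (Hs : List (List (ℕ × ℕ))) (A : LM) : LB :=
  Hs.map fun H => detSL D n (matH D n H A)

/-- Solvability of the equations. -/
def solv (D n : ℕ) (Hs : List (List (ℕ × ℕ))) (A : LM) : Bool :=
  inSpan Hs.length D ((posL n n).map (vecP D n Hs A)) (vecS D n Hs A)

/-- The algorithm. -/
def accept (c s₀ : ℕ) (w : List Sym) : Bool :=
  decide (nOf w ≤ 1) || ((List.range (nOf w)).any fun u => unp (run c w).2 u) ||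
    solv (DD (nOf w + nOf w) (tests c (nOf w)).length) (nOf w) (tup (edgesOf w) s₀)
      (matL (DD (nOf w + nOf w) (tests c (nOf w)).length) w (nOf w) (run c w).1 (run c w).2)

/-! ### Polynomial time -/

variable {α : Type} [TEnc α]

@[fun_prop]
theorem PF.tup {β : Type} [TEnc β] {E : α → List β} (hE : PF E) (c : ℕ) :
    PF fun a => tup (E a) c := by
  induction c with
  | zero =>
    simp only [MP_0c183c_P9A.tup]
    fun_prop
  | succ c ih =>
    simp only [MP_0c183c_P9A.tup]
    refine PF.cons (by fun_prop) (PF.flatMap hE (PF.map ?_ (by fun_prop)))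
    exact PF.comp (f := fun a => MP_0c183c_P9A.tup (E a) c) (g := fun p : α × β => p.1) ih
      (by fun_prop)

@[fun_prop]
theorem PF.unp {σ : α → List (ℕ × ℕ)} {u : α → ℕ} (hσ : PF σ) (hu : PF u) :
    PF fun a => unp (σ a) (u a) := by
  unfold MP_0c183c_P9A.unp
  fun_prop

@[fun_prop]
theorem PF.inP {σ : α → List (ℕ × ℕ)} {u v : α → ℕ} (hσ : PF σ) (hu : PF u) (hv : PF v) :
    PF fun a => inP (σ a) (u a) (v a) := by
  unfold MP_0c183c_P9A.inP
  fun_prop

@[fun_prop]
theorem PF.gadj {w : α → List Sym} {n : α → ℕ} {σ : α → List (ℕ × ℕ)} {u v : α → ℕ} (hw : PF w)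
    (hn : PF n) (hσ : PF σ) (hu : PF u) (hv : PF v) :
    PF fun a => gadj (w a) (n a) (σ a) (u a) (v a) := by
  unfold MP_0c183c_P9A.gadj
  fun_prop

@[fun_prop]
theorem PF.lk {y : α → List (ℕ × ℕ × ℕ)} {u v : α → ℕ} (hy : PF y) (hu : PF u) (hv : PF v) :
    PF fun a => lk (y a) (u a) (v a) := by
  unfold MP_0c183c_P9A.lk
  fun_prop

@[fun_prop]
theorem PF.ent {D : α → ℕ} {w : α → List Sym} {n : α → ℕ} {y : α → List (ℕ × ℕ × ℕ)}
    {σ : α → List (ℕ × ℕ)} {u v : α → ℕ} (hD : PF D) (hw : PF w)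
    (hn : PF n) (hy : PF y) (hσ : PF σ) (hu : PF u) (hv : PF v) :
    PF fun a => ent (D a) (w a) (n a) (y a) (σ a) (u a) (v a) := by
  unfold MP_0c183c_P9A.ent
  fun_prop

@[fun_prop]
theorem PF.matL {D : α → ℕ} {w : α → List Sym} {n : α → ℕ} {y : α → List (ℕ × ℕ × ℕ)}
    {σ : α → List (ℕ × ℕ)} (hD : PF D) (hw : PF w) (hn : PF n) (hy : PF y) (hσ : PF σ) :
    PF fun a => matL (D a) (w a) (n a) (y a) (σ a) := by
  unfold MP_0c183c_P9A.matL
  fun_prop

@[fun_prop]
theorem PF.repL {D m : α → ℕ} {l : α → List (ℕ × ℕ)} {A : α → LM} (hD : PF D) (hm : PF m)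
    (hl : PF l) (hA : PF A) : PF fun a => repL (D a) (m a) (l a) (A a) := by
  unfold MP_0c183c_P9A.repL
  fun_prop

@[fun_prop]
theorem PF.nzT {D m : α → ℕ} {l : α → List (ℕ × ℕ)} {A : α → LM} (hD : PF D) (hm : PF m)
    (hA : PF A) (hl : PF l) : PF fun a => nzT (D a) (m a) (A a) (l a) := by
  unfold MP_0c183c_P9A.nzT
  fun_prop

@[fun_prop]
theorem PF.MM {m t : α → ℕ} (hm : PF m) (ht : PF t) : PF fun a => MM (m a) (t a) := by
  unfold MP_0c183c_P9A.MM
  fun_prop

@[fun_prop]
theorem PF.DD {m t : α → ℕ} (hm : PF m) (ht : PF t) : PF fun a => DD (m a) (t a) := by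
  unfold MP_0c183c_P9A.DD
  fun_prop

@[fun_prop]
theorem PF.cands {w : α → List Sym} {n : α → ℕ} {σ : α → List (ℕ × ℕ)} {M : α → ℕ} (hw : PF w)
    (hn : PF n) (hσ : PF σ) (hM : PF M) : PF fun a => cands (w a) (n a) (σ a) (M a) := by
  unfold MP_0c183c_P9A.cands
  fun_prop

@[fun_prop]
theorem PF.impr {D m : α → ℕ} {T : α → List (List (ℕ × ℕ))} {A A' : α → LM} (hD : PF D)
    (hm : PF m) (hT : PF T) (hA : PF A) (hA' : PF A') :
    PF fun a => impr (D a) (m a) (T a) (A a) (A' a) := by
  unfold MP_0c183c_P9A.impr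
  fun_prop

@[fun_prop]
theorem PF.tests (c : ℕ) {n : α → ℕ} (hn : PF n) : PF fun a => tests c (n a) := by
  unfold MP_0c183c_P9A.tests
  fun_prop

@[fun_prop]
theorem PF.step (c : ℕ) {w : α → List Sym} {st : α → List (ℕ × ℕ × ℕ) × List (ℕ × ℕ)}
    (hw : PF w) (hst : PF st) : PF fun a => step c (w a) (st a) := by
  unfold MP_0c183c_P9A.step
  fun_prop

theorem step_tsz (c : ℕ) (w : List Sym) (st : List (ℕ × ℕ × ℕ) × List (ℕ × ℕ)) :
    tsz (step c w st) ≤ tsz st + (2 * (nOf w + nOf w) + 2 * (nOf w + nOf w) +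
      2 * MM (nOf w + nOf w) (tests c (nOf w)).length + 10) := by
  unfold MP_0c183c_P9A.step
  cases h : (cands w (nOf w) st.2 (MM (nOf w + nOf w) (tests c (nOf w)).length)).find? fun t =>
      impr (DD (nOf w + nOf w) (tests c (nOf w)).length) (nOf w + nOf w) (tests c (nOf w))
        (matL (DD (nOf w + nOf w) (tests c (nOf w)).length) w (nOf w) st.1 st.2)
        (matL (DD (nOf w + nOf w) (tests c (nOf w)).length) w (nOf w) (t :: st.1) st.2) with
  | some t =>
    have ht := List.mem_of_find?_eq_some h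
    simp only [cands, List.mem_flatMap, List.mem_filter, mem_posL, List.mem_map,
      List.mem_range] at ht
    obtain ⟨p, ⟨⟨h1, h2⟩, -⟩, k, hk, rfl⟩ := ht
    simp only [Option.elim_some, tsz_pair, tsz_cons, tsz_nat]
    omega
  | none =>
    rw [Option.elim_none]
    cases h' : (posL (nOf w) (nOf w)).find? fun p => decide (p.1 < p.2) && unp st.2 p.1 &&
      unp st.2 p.2 && nzT (DD (nOf w + nOf w) (tests c (nOf w)).length) (nOf w + nOf w)
        (matL (DD (nOf w + nOf w) (tests c (nOf w)).length) w (nOf w) st.1 st.2)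
        [(nOf w + p.1, nOf w + p.2)] with
    | some p =>
      have hp := mem_posL.1 (List.mem_of_find?_eq_some h')
      simp only [Option.elim_some, tsz_pair, tsz_cons, tsz_nat]
      omega
    | none =>
      simp

@[fun_prop]
theorem PF.run (c : ℕ) {w : α → List Sym} (hw : PF w) : PF fun a => run c (w a) := by
  unfold MP_0c183c_P9A.run
  refine PF.foldl_add (C := fun a => 2 * (nOf (w a) + nOf (w a)) + 2 * (nOf (w a) + nOf (w a)) +
      2 * MP_0c183c_P9A.MM (nOf (w a) + nOf (w a)) (MP_0c183c_P9A.tests c (nOf (w a))).length + 10)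
      (by fun_prop) (by fun_prop) (by fun_prop) (PB.nat (by fun_prop)) ?_
  intro a _ _ x
  exact step_tsz c (w a) x

@[fun_prop]
theorem PF.inV {H : α → List (ℕ × ℕ)} {u : α → ℕ} (hH : PF H) (hu : PF u) :
    PF fun a => inV (H a) (u a) := by
  unfold MP_0c183c_P9A.inV
  fun_prop

@[fun_prop]
theorem PF.matH {D n : α → ℕ} {H : α → List (ℕ × ℕ)} {A : α → LM} (hD : PF D) (hn : PF n)
    (hH : PF H) (hA : PF A) : PF fun a => matH (D a) (n a) (H a) (A a) := by
  unfold MP_0c183c_P9A.matH
  fun_prop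

@[fun_prop]
theorem PF.maskL {n i k : α → ℕ} {A : α → LM} (hn : PF n) (hi : PF i)
    (hk : PF k) (hA : PF A) : PF fun a => maskL (n a) (i a) (k a) (A a) := by
  unfold MP_0c183c_P9A.maskL
  fun_prop

@[fun_prop]
theorem PF.detSL {D n : α → ℕ} {A : α → LM} (hD : PF D) (hn : PF n) (hA : PF A) :
    PF fun a => detSL (D a) (n a) (A a) := by
  unfold MP_0c183c_P9A.detSL
  fun_prop

@[fun_prop]
theorem PF.vecP {D n : α → ℕ} {Hs : α → List (List (ℕ × ℕ))} {A : α → LM} {p : α → ℕ × ℕ}
    (hD : PF D) (hn : PF n) (hHs : PF Hs) (hA : PF A) (hp : PF p) :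
    PF fun a => vecP (D a) (n a) (Hs a) (A a) (p a) := by
  unfold MP_0c183c_P9A.vecP
  fun_prop

@[fun_prop]
theorem PF.vecS {D n : α → ℕ} {Hs : α → List (List (ℕ × ℕ))} {A : α → LM}
    (hD : PF D) (hn : PF n) (hHs : PF Hs) (hA : PF A) :
    PF fun a => vecS (D a) (n a) (Hs a) (A a) := by
  unfold MP_0c183c_P9A.vecS
  fun_prop

@[fun_prop]
theorem PF.solv {D n : α → ℕ} {Hs : α → List (List (ℕ × ℕ))} {A : α → LM}
    (hD : PF D) (hn : PF n) (hHs : PF Hs) (hA : PF A) :
    PF fun a => solv (D a) (n a) (Hs a) (A a) := by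
  unfold MP_0c183c_P9A.solv
  fun_prop

@[fun_prop]
theorem PF.accept (c s₀ : ℕ) {w : α → List Sym} (hw : PF w) :
    PF fun a => accept c s₀ (w a) := by
  unfold MP_0c183c_P9A.accept
  fun_prop

end Pool.Agent.Lib.MP_0c183c_P9A
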