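import Pool.Agent.Lib.PolyTree.GraphInput
import Pool.Agent.Lib.MP_0c183c_co.Bird

/-!
# Polynomials over the field with two elements as bit lists, matrices of polynomials, determinants
-/

set_option autoImplicit false

namespace Pool.Agent.Lib.MP_0c183c_P9A

open Pool.Agent.Lib.PolyTree Polynomial Finset
open Pool.Agent.Lib.MP_0c183c_co (mu bird bird_det)

/-- Bits as elements of the field with two elements. -/
def bt (b : Bool) : ZMod 2 := if b = true then 1 else 0

@[simp] theorem bt_true : bt true = 1 := rfl
@[simp] theorem bt_false : bt false = 0 := rfl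

theorem bt_xor (a b : Bool) : bt (xor a b) = bt a + bt b := by
  cases a <;> cases b <;> decide

theorem bt_and (a b : Bool) : bt (a && b) = bt a * bt b := by
  cases a <;> cases b <;> decide

theorem bt_inj {a b : Bool} (h : bt a = bt b) : a = b := by
  revert h
  cases a <;> cases b <;> decide

/-- Parity of the number of true entries. -/
def par (l : List Bool) : Bool := decide ((l.filter fun b => b).length % 2 = 1)

theorem bt_par (l : List Bool) : bt (par l) = (l.map bt).sum := by
  have key : ∀ l : List Bool, (((l.filter fun b => b).length : ℕ) : ZMod 2) = (l.map bt).sum := by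
    intro l
    induction l with
    | nil => simp
    | cons b l ih =>
      rw [List.map_cons, List.sum_cons, ← ih]
      cases b
      · simp
      · simp [add_comm]
  rw [← key, par]
  rcases Nat.mod_two_eq_zero_or_one (l.filter fun b => b).length with h | h
  · rw [h]
    have h2 : (((l.filter fun b => b).length : ℕ) : ZMod 2) = 0 := by
      rw [ZMod.natCast_eq_zero_iff]
      omega
    rw [h2]
    simp
  · rw [h]
    have h2 : (((l.filter fun b => b).length : ℕ) : ZMod 2) = 1 := by
      have h3 := Nat.div_add_mod (l.filter fun b => b).length 2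
      rw [h] at h3
      rw [← h3]
      push_cast
      have : (2 : ZMod 2) = 0 := by decide
      rw [this]
      ring
    rw [h2]
    simp

/-- A bit of a list. -/
abbrev gb (l : List Bool) (k : ℕ) : Bool := l.getD k false

/-- The bit list `l` represents the polynomial `p` modulo `X ^ D`. -/
def Rep (D : ℕ) (l : List Bool) (p : (ZMod 2)[X]) : Prop := ∀ k < D, bt (gb l k) = p.coeff k

theorem getD_map_range {α : Type} (n : ℕ) (f : ℕ → α) (d : α) {k : ℕ} (hk : k < n) :
    ((List.range n).map f).getD k d = f k := by
  rw [List.getD_eq_getElem?_getD, List.getElem?_map, List.getElem?_range hk]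
  rfl

theorem Rep.nil (D : ℕ) : Rep D [] 0 := by
  intro k _
  simp

/-- Monomials. -/
def mono (D k : ℕ) : List Bool := (List.range D).map fun j => decide (j = k)

theorem Rep.mono (D k : ℕ) : Rep D (mono D k) (X ^ k) := by
  intro j hj
  rw [gb, MP_0c183c_P9A.mono, getD_map_range D _ _ hj, coeff_X_pow]
  by_cases h : j = k
  · simp [h]
  · simp [h]

/-- Sum. -/
def addP (D : ℕ) (a b : List Bool) : List Bool :=
  (List.range D).map fun k => xor (gb a k) (gb b k)

theorem Rep.add {D : ℕ} {a b : List Bool} {p q : (ZMod 2)[X]} (ha : Rep D a p)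
    (hb : Rep D b q) : Rep D (addP D a b) (p + q) := by
  intro k hk
  rw [gb, addP, getD_map_range D _ _ hk, bt_xor, ha k hk, hb k hk, coeff_add]

/-- Product. -/
def mulP (D : ℕ) (a b : List Bool) : List Bool :=
  (List.range D).map fun k => par ((List.range (k + 1)).map fun i => gb a i && gb b (k - i))

theorem Rep.mul {D : ℕ} {a b : List Bool} {p q : (ZMod 2)[X]} (ha : Rep D a p)
    (hb : Rep D b q) : Rep D (mulP D a b) (p * q) := by
  intro k hk
  rw [gb, mulP, getD_map_range D _ _ hk, bt_par, List.map_map, coeff_mul,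
    Finset.Nat.sum_antidiagonal_eq_sum_range_succ (fun i j => p.coeff i * q.coeff j),
    ← List.sum_toFinset _ List.nodup_range]
  refine sum_congr ?_ fun i hi => ?_
  · ext i; simp
  · have hi' : i < k + 1 := by simpa using hi
    rw [Function.comp_apply, bt_and, ha i (by omega), hb (k - i) (by omega)]

/-- Sum of a list. -/
def sumP (D : ℕ) (l : List (List Bool)) : List Bool :=
  (List.range D).map fun k => par (l.map fun a => gb a k)

theorem Rep.sum {ι : Type} {D : ℕ} {l : List ι} (hl : l.Nodup) {f : ι → List Bool}
    {p : ι → (ZMod 2)[X]} [DecidableEq ι] (h : ∀ i ∈ l, Rep D (f i) (p i)) :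
    Rep D (sumP D (l.map f)) (∑ i ∈ l.toFinset, p i) := by
  intro k hk
  rw [gb, sumP, getD_map_range D _ _ hk, bt_par, List.map_map, List.map_map, finsetSum_coeff,
    ← List.sum_toFinset _ hl]
  refine sum_congr rfl fun i hi => ?_
  rw [Function.comp_apply, Function.comp_apply]
  exact h i (List.mem_toFinset.1 hi) k hk

theorem Rep.sumRange {D n : ℕ} {f : ℕ → List Bool} {p : ℕ → (ZMod 2)[X]}
    (h : ∀ i < n, Rep D (f i) (p i)) :
    Rep D (sumP D ((List.range n).map f)) (∑ i ∈ range n, p i) := by
  have := Rep.sum (List.nodup_range (n := n)) (f := f) (p := p)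
    (fun i hi => h i (List.mem_range.1 hi))
  convert this using 2
  ext i; simp

/-- Is the polynomial nonzero? -/
def nzP (l : List Bool) : Bool := l.any fun b => b

theorem Rep.nzP {D : ℕ} {l : List Bool} {p : (ZMod 2)[X]} (h : Rep D l p)
    (hl : l.length ≤ D) (hp : p.degree < D) : nzP l = true ↔ p ≠ 0 := by
  constructor
  · intro h1 h2
    subst h2
    obtain ⟨b, hb, hb'⟩ := List.any_eq_true.1 h1
    obtain ⟨k, hk, rfl⟩ := List.getElem_of_mem hb
    have h3 := h k (by omega)
    rw [gb, List.getD_eq_getElem _ _ hk, hb', coeff_zero] at h3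
    simp at h3
  · intro h1
    by_contra h2
    apply h1
    ext k
    rw [coeff_zero]
    by_cases hk : k < D
    · rw [← h k hk]
      have : gb l k = false := by
        by_contra h3
        rw [Bool.not_eq_false] at h3
        apply h2
        have hk' : k < l.length := by
          by_contra hk'
          rw [gb, List.getD_eq_getElem?_getD, List.getElem?_eq_none (by omega)] at h3
          simp at h3
        rw [gb, List.getD_eq_getElem _ _ hk'] at h3
        exact List.any_eq_true.2 ⟨_, List.getElem_mem hk', h3⟩
      rw [this]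
      rfl
    · exact coeff_eq_zero_of_degree_lt (lt_of_lt_of_le hp (by exact_mod_cast Nat.le_of_not_lt hk))

/-- Matrices. -/
abbrev LM := List (List (List Bool))

/-- Entry of a matrix. -/
def gp (M : LM) (i j : ℕ) : List Bool := (M.getD i []).getD j []

/-- Table. -/
def tab (n : ℕ) (f : ℕ → ℕ → List Bool) : LM :=
  (List.range n).map fun i => (List.range n).map fun j => f i j

theorem gp_tab (n : ℕ) (f : ℕ → ℕ → List Bool) {i j : ℕ} (hi : i < n) (hj : j < n) :
    gp (tab n f) i j = f i j := by
  rw [gp, tab, getD_map_range n _ _ hi, getD_map_range n _ _ hj]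

/-- Representation of matrices. -/
def RepM (D N : ℕ) (M : LM) (P : Matrix (Fin N) (Fin N) (ZMod 2)[X]) : Prop :=
  ∀ i j : Fin N, Rep D (gp M i j) (P i j)

/-- The auxiliary matrix of Bird's algorithm. -/
def muL (D N : ℕ) (X : LM) : LM := tab N fun i j =>
  if i < j then gp X i j else if i = j then
    sumP D (((List.range N).filter fun l => decide (i < l)).map fun l => gp X l l) else []

theorem RepM.mu {D N : ℕ} {M : LM} {P : Matrix (Fin N) (Fin N) (ZMod 2)[X]}
    (h : RepM D N M P) : RepM D N (muL D N M) (mu P) := by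
  intro i j
  rw [muL, gp_tab _ _ i.2 j.2]
  unfold MP_0c183c_co.mu
  by_cases h1 : i < j
  · rw [if_pos h1, if_pos (Fin.lt_def.1 h1)]
    exact h i j
  · rw [if_neg h1, if_neg (fun h' => h1 (Fin.lt_def.2 h'))]
    by_cases h2 : i = j
    · rw [if_pos h2, if_pos (congrArg Fin.val h2)]
      have h3 : (∑ l, if i < l then P l l else 0) =
          ∑ l ∈ ((List.range N).filter fun l => decide ((i : ℕ) < l)).toFinset,
            (if hl : l < N then P ⟨l, hl⟩ ⟨l, hl⟩ else 0) := by
        rw [← sum_filter]
        refine sum_bij (fun l _ => l.val) ?_ ?_ ?_ ?_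
        · intro l hl
          simp only [mem_filter, mem_univ, true_and] at hl
          simp only [List.mem_toFinset, List.mem_filter, List.mem_range, decide_eq_true_eq]
          exact ⟨l.2, hl⟩
        · intro a _ b _ hab
          exact Fin.ext hab
        · intro l hl
          simp only [List.mem_toFinset, List.mem_filter, List.mem_range, decide_eq_true_eq] at hl
          exact ⟨⟨l, hl.1⟩, mem_filter.2 ⟨mem_univ _, Fin.lt_def.2 hl.2⟩, rfl⟩
        · intro l _
          rw [dif_pos l.2]
      rw [h3]
      refine Rep.sum (List.nodup_range.filter _) ?_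
      intro l hl
      simp only [List.mem_filter, List.mem_range, decide_eq_true_eq] at hl
      rw [dif_pos hl.1]
      exact h ⟨l, hl.1⟩ ⟨l, hl.1⟩
    · rw [if_neg h2, if_neg (fun h' => h2 (Fin.ext h'))]
      exact Rep.nil D

/-- Product of matrices. -/
def mulM (D N : ℕ) (X Y : LM) : LM := tab N fun i j =>
  sumP D ((List.range N).map fun l => mulP D (gp X i l) (gp Y l j))

theorem RepM.mul {D N : ℕ} {M M' : LM} {P P' : Matrix (Fin N) (Fin N) (ZMod 2)[X]}
    (h : RepM D N M P) (h' : RepM D N M' P') : RepM D N (mulM D N M M') (P * P') := by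
  intro i j
  rw [mulM, gp_tab _ _ i.2 j.2, Matrix.mul_apply]
  have h3 : (∑ l, P i l * P' l j) = ∑ l ∈ range N,
      (if hl : l < N then P i ⟨l, hl⟩ * P' ⟨l, hl⟩ j else 0) := by
    rw [← Fin.sum_univ_eq_sum_range (fun l => if hl : l < N then P i ⟨l, hl⟩ * P' ⟨l, hl⟩ j else 0)]
    refine sum_congr rfl fun l _ => ?_
    rw [dif_pos l.2]
  rw [h3]
  refine Rep.sumRange ?_
  intro l hl
  rw [dif_pos hl]
  exact (h i ⟨l, hl⟩).mul (h' ⟨l, hl⟩ j)

/-- Determinant by Bird's algorithm. -/
def detL (D N : ℕ) (A : LM) : List Bool :=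
  gp ((fun X => mulM D N (muL D N X) A)^[N - 1] A) 0 0

theorem RepM.det {D N : ℕ} (hN : 0 < N) {M : LM} {P : Matrix (Fin N) (Fin N) (ZMod 2)[X]}
    (h : RepM D N M P) : Rep D (detL D N M) P.det := by
  obtain ⟨n, rfl⟩ : ∃ n, N = n + 1 := ⟨N - 1, by omega⟩
  have key : ∀ r, RepM D (n + 1) ((fun X => mulM D (n + 1) (muL D (n + 1) X) M)^[r] M)
      (bird P r) := by
    intro r
    induction r with
    | zero => exact h
    | succ r ih =>
      rw [Function.iterate_succ_apply']
      exact ih.mu.mul h
  rw [← bird_det, detL, Nat.add_sub_cancel]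
  exact key n 0 0

theorem sumP_length (D : ℕ) (l : List (List Bool)) : (sumP D l).length = D := by
  rw [sumP, List.length_map, List.length_range]

theorem detL_length (D N : ℕ) (A : LM) (hA : ∀ i j, (gp A i j).length ≤ D) :
    (detL D N A).length ≤ D := by
  have h0 : ∀ (B C : LM) (i j : ℕ), (gp (mulM D N B C) i j).length ≤ D := by
    intro B C i j
    by_cases hi : i < N
    · by_cases hj : j < N
      · rw [mulM, gp_tab _ _ hi hj, sumP_length]
      · have : gp (mulM D N B C) i j = [] := by
          rw [gp, mulM, tab, getD_map_range _ _ _ hi, List.getD_eq_default]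
          simp only [List.length_map, List.length_range]
          omega
        rw [this]
        simp
    · have : gp (mulM D N B C) i j = [] := by
        rw [gp, mulM, tab]
        rw [List.getD_eq_default (n := i)]
        · simp
        · simp only [List.length_map, List.length_range]
          omega
      rw [this]
      simp
  unfold detL
  rcases Nat.eq_zero_or_pos (N - 1) with h | h
  · rw [h]
    exact hA 0 0
  · obtain ⟨r, hr⟩ : ∃ r, N - 1 = r + 1 := ⟨N - 1 - 1, by omega⟩
    rw [hr, Function.iterate_succ_apply']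
    exact h0 _ _ 0 0

end Pool.Agent.Lib.MP_0c183c_P9A
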