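import Pool.Agent.Lib.MP_0c183c_P9A.Paired
import Pool.Agent.Lib.MP_0c183c_co.Prob

/-! # The linear system -/

set_option autoImplicit false

namespace Pool.Agent.Lib.MP_0c183c_P9A

open Pool.Agent.Lib.PolyTree Pool.Agent.Lib.FOLFP Matrix Finset Polynomial
open Pool.Agent.Lib.MP_0c183c_h75B (IsAltOn)
open Pool.Agent.Lib.MP_0c183c_co (mask detS IsPM InG cr lin)

theorem Rep.sumFin {D n : ℕ} {f : ℕ → List Bool} {p : Fin n → (ZMod 2)[X]}
    (h : ∀ i : Fin n, Rep D (f i) (p i)) :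
    Rep D (sumP D ((List.range n).map f)) (∑ i, p i) := by
  have h1 : ∑ i, p i = ∑ i ∈ range n, (if hi : i < n then p ⟨i, hi⟩ else 0) := by
    rw [Finset.sum_range]
    refine sum_congr rfl fun i _ => ?_
    rw [dif_pos i.2]
  rw [h1]
  refine Rep.sumRange fun i hi => ?_
  rw [dif_pos hi]
  exact h ⟨i, hi⟩

/-- The modified matrix. -/
def delN {n : ℕ} {R : Type} [Zero R] [One R] (H : List (ℕ × ℕ)) (A : Matrix (Fin n) (Fin n) R) :
    Matrix (Fin n) (Fin n) R := fun u v =>
  if (inV H u || inV H v) = true then (if inP H u v = true then 1 else 0) else A u v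

theorem repM_del {D n : ℕ} {M : LM} {P : Matrix (Fin n) (Fin n) (ZMod 2)[X]}
    (h : RepM D n M P) (H : List (ℕ × ℕ)) : RepM D n (matH D n H M) (delN H P) := by
  intro a b
  rw [matH, gp_tab _ _ a.2 b.2]
  unfold delN
  split_ifs
  · exact Rep.one D
  · exact Rep.nil D
  · exact h a b

theorem repM_mask {D n : ℕ} {M : LM} {P : Matrix (Fin n) (Fin n) (ZMod 2)[X]}
    (h : RepM D n M P) (i k : Fin n) : RepM D n (maskL n i k M) (mask i k P) := by
  intro a b
  rw [maskL, gp_tab _ _ a.2 b.2]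
  unfold mask
  have e : (((decide ((a : ℕ) = i) || decide ((a : ℕ) = k)) ^^
      (decide ((b : ℕ) = i) || decide ((b : ℕ) = k))) = true) ↔
      ¬ ((a = i ∨ a = k) ↔ (b = i ∨ b = k)) := by
    simp only [Fin.ext_iff]
    by_cases h1 : (a : ℕ) = i <;> by_cases h2 : (a : ℕ) = k <;>
      by_cases h3 : (b : ℕ) = i <;> by_cases h4 : (b : ℕ) = k <;> simp [h1, h2, h3, h4]
  by_cases hc : (a = i ∨ a = k) ↔ (b = i ∨ b = k)
  · rw [if_neg (fun h' => e.1 h' hc), if_pos hc]
    exact h a b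
  · rw [if_pos (e.2 hc), if_neg hc]
    exact Rep.nil D

theorem rep_detS {D n : ℕ} (hn : 0 < n) {M : LM} {P : Matrix (Fin n) (Fin n) (ZMod 2)[X]}
    (h : RepM D n M P) : Rep D (detSL D n M) (detS P) := by
  unfold detSL detS
  refine Rep.sumFin fun i => Rep.sumFin fun j => Rep.sumFin fun k => Rep.sumFin fun l => ?_
  by_cases hc : i < j ∧ j < k ∧ k < l
  · rw [if_pos hc, if_pos (show (i : ℕ) < j ∧ (j : ℕ) < k ∧ (k : ℕ) < l from hc)]
    exact (repM_mask (repM_mask h j l) i k).det hn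
  · rw [if_neg hc, if_neg (show ¬ ((i : ℕ) < j ∧ (j : ℕ) < k ∧ (k : ℕ) < l) from hc)]
    exact Rep.nil D

theorem getD_map' {α β : Type} (l : List α) (f : α → β) (z : β) {t : ℕ} (ht : t < l.length) :
    (l.map f).getD t z = f l[t] := by
  rw [List.getD_eq_getElem _ _ (by simpa using ht), List.getElem_map]

theorem natDegree_del {n d : ℕ} {P : Matrix (Fin n) (Fin n) (ZMod 2)[X]} (H : List (ℕ × ℕ))
    (h : ∀ a b, (P a b).natDegree ≤ d) : ∀ a b, (delN H P a b).natDegree ≤ d := by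
  intro a b
  unfold delN
  split_ifs
  · simp
  · simp
  · exact h a b

theorem natDegree_mask {n d : ℕ} {P : Matrix (Fin n) (Fin n) (ZMod 2)[X]} (i k : Fin n)
    (h : ∀ a b, (P a b).natDegree ≤ d) : ∀ a b, (mask i k P a b).natDegree ≤ d := by
  intro a b
  unfold mask
  split_ifs
  · exact h a b
  · simp

theorem coeff_det_zero {n D d : ℕ} {P : Matrix (Fin n) (Fin n) (ZMod 2)[X]}
    (h : ∀ a b, (P a b).natDegree ≤ d) (hD : n * d < D) {j : ℕ} (hj : D ≤ j) :
    P.det.coeff j = 0 := by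
  have h1 := natDegree_det_le P h
  rw [Fintype.card_fin] at h1
  exact coeff_eq_zero_of_natDegree_lt (by omega)

theorem coeff_detS_zero {n D d : ℕ} {P : Matrix (Fin n) (Fin n) (ZMod 2)[X]}
    (h : ∀ a b, (P a b).natDegree ≤ d) (hD : n * d < D) {j : ℕ} (hj : D ≤ j) :
    (detS P).coeff j = 0 := by
  unfold detS
  simp only [finsetSum_coeff]
  refine sum_eq_zero fun i _ => sum_eq_zero fun k _ => sum_eq_zero fun l _ =>
    sum_eq_zero fun l' _ => ?_
  split_ifs
  · exact coeff_det_zero (natDegree_mask _ _ (natDegree_mask _ _ h)) hD hj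
  · simp

/-- Solvability of the system. -/
theorem solv_iff {n D d : ℕ} (hn : 0 < n) (hD : n * d < D) {M : LM}
    {P : Matrix (Fin n) (Fin n) (ZMod 2)[X]} (h : RepM D n M P)
    (hd : ∀ a b, (P a b).natDegree ≤ d) (Hs : List (List (ℕ × ℕ))) :
    solv D n Hs M = true ↔ ∃ x : Fin n → Fin n → ZMod 2, ∀ H ∈ Hs, detS (delN H P) =
      ∑ i, ∑ k, if i < k then C (x i k) * (mask i k (delN H P)).det else 0 := by
  unfold solv
  rw [inSpan_iff]
  set V : Fin n × Fin n → (ℕ × ℕ → ZMod 2) := fun q =>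
    vec Hs.length D (vecP D n Hs M ((q.1 : ℕ), (q.2 : ℕ))) with hV
  have h1 : spn Hs.length D ((posL n n).map (vecP D n Hs M)) =
      Submodule.span (ZMod 2) (Set.range V) := by
    unfold spn
    congr 1
    ext u
    simp only [Set.mem_range, List.mem_map]
    constructor
    · rintro ⟨v, ⟨p, hp, rfl⟩, rfl⟩
      have hp' := mem_posL.1 hp
      exact ⟨(⟨p.1, hp'.1⟩, ⟨p.2, hp'.2⟩), rfl⟩
    · rintro ⟨q, rfl⟩
      exact ⟨_, ⟨((q.1 : ℕ), (q.2 : ℕ)), mem_posL.2 ⟨q.1.2, q.2.2⟩, rfl⟩, rfl⟩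
  rw [h1, Submodule.mem_span_range_iff_exists_fun]
  have hvS : ∀ (t j : ℕ) (ht : t < Hs.length), j < D →
      vec Hs.length D (vecS D n Hs M) (t, j) = (detS (delN Hs[t] P)).coeff j := by
    intro t j ht hj
    unfold vec
    rw [if_pos ⟨ht, hj⟩]
    unfold vecS g2
    simp only
    rw [getD_map' _ _ _ ht]
    exact rep_detS hn (repM_del h _) j hj
  have hvP : ∀ (q : Fin n × Fin n) (t j : ℕ) (ht : t < Hs.length), j < D →
      V q (t, j) = if q.1 < q.2 then ((mask q.1 q.2 (delN Hs[t] P)).det).coeff j else 0 := by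
    intro q t j ht hj
    rw [hV]
    simp only
    unfold vec
    rw [if_pos ⟨ht, hj⟩]
    unfold vecP g2
    simp only
    by_cases hq : q.1 < q.2
    · rw [if_pos hq, if_pos (show (q.1 : ℕ) < q.2 from hq),
        getD_map' _ _ _ ht]
      exact (repM_mask (repM_del h _) q.1 q.2).det hn j hj
    · rw [if_neg hq, if_neg (show ¬ (q.1 : ℕ) < q.2 from hq)]
      simp
  have hout : ∀ v : LB, ∀ p : ℕ × ℕ, ¬ (p.1 < Hs.length ∧ p.2 < D) →
      vec Hs.length D v p = 0 := by
    intro v p hp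
    unfold vec
    rw [if_neg hp]
  have hcoef : ∀ (x : Fin n → Fin n → ZMod 2) (Q : Matrix (Fin n) (Fin n) (ZMod 2)[X]) (j : ℕ),
      (∑ i, ∑ k, if i < k then C (x i k) * (mask i k Q).det else 0).coeff j =
        ∑ i, ∑ k, if i < k then x i k * ((mask i k Q).det).coeff j else 0 := by
    intro x Q j
    simp only [finsetSum_coeff]
    refine sum_congr rfl fun i _ => sum_congr rfl fun k _ => ?_
    split_ifs
    · rw [coeff_C_mul]
    · simp
  constructor
  · rintro ⟨c, hc⟩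
    refine ⟨fun i k => c (i, k), fun H hH => ?_⟩
    obtain ⟨t, ht, rfl⟩ := List.getElem_of_mem hH
    ext j
    rw [hcoef]
    by_cases hj : j < D
    · have h2 := congrFun hc (t, j)
      rw [hvS t j ht hj, Finset.sum_apply] at h2
      rw [← h2, Fintype.sum_prod_type]
      refine sum_congr rfl fun i _ => sum_congr rfl fun k _ => ?_
      rw [Pi.smul_apply, smul_eq_mul, hvP (i, k) t j ht hj]
      split_ifs <;> simp
    · rw [coeff_detS_zero (natDegree_del _ hd) hD (by omega)]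
      symm
      refine sum_eq_zero fun i _ => sum_eq_zero fun k _ => ?_
      split_ifs
      · rw [coeff_det_zero (natDegree_mask _ _ (natDegree_del _ hd)) hD (by omega), mul_zero]
      · rfl
  · rintro ⟨x, hx⟩
    refine ⟨fun q => x q.1 q.2, ?_⟩
    funext p
    obtain ⟨t, j⟩ := p
    rw [Finset.sum_apply]
    by_cases hp : t < Hs.length ∧ j < D
    · rw [hvS t j hp.1 hp.2, hx _ (List.getElem_mem hp.1), hcoef, Fintype.sum_prod_type]
      refine sum_congr rfl fun i _ => sum_congr rfl fun k _ => ?_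
      rw [Pi.smul_apply, smul_eq_mul, hvP (i, k) t j hp.1 hp.2]
      split_ifs <;> simp
    · rw [hout _ _ hp]
      refine sum_eq_zero fun q _ => ?_
      rw [Pi.smul_apply, hV]
      simp only
      rw [hout _ _ hp, smul_zero]

/-- One equation. -/
theorem eqn_iff {n : ℕ} (A : Matrix (Fin n) (Fin n) (ZMod 2)[X]) (hs : ∀ u v, A u v = A v u)
    (h0 : ∀ v, A v v = 0) (x : Fin n → Fin n → ZMod 2) :
    (detS A = ∑ i, ∑ k, if i < k then C (x i k) * (mask i k A).det else 0) ↔
      MP_0c183c_co.T (fun m => C (cr m + lin x m)) A = 0 := by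
  rw [MP_0c183c_co.sum_mask_eq A hs h0, MP_0c183c_co.detS_eq A hs h0 C]
  have : MP_0c183c_co.T (fun m => C (cr m + lin x m)) A =
      MP_0c183c_co.T (fun m => C (cr m)) A + MP_0c183c_co.T (fun m => C (lin x m)) A := by
    unfold MP_0c183c_co.T
    rw [← sum_add_distrib]
    refine sum_congr rfl fun m _ => ?_
    change C (cr m + lin x m) * _ = C (cr m) * _ + C (lin x m) * _
    rw [map_add, add_mul]
  rw [this, CharTwo.add_eq_zero]

theorem T_map {n : ℕ} {K : Type} [Field K] [CharP K 2] (φ : (ZMod 2)[X] →+* K)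
    (A : Matrix (Fin n) (Fin n) (ZMod 2)[X]) (x : Fin n → Fin n → ZMod 2) :
    φ (MP_0c183c_co.T (fun m => C (cr m + lin x m)) A) = MP_0c183c_co.T (fx K x) (A.map φ) := by
  unfold MP_0c183c_co.T fx
  rw [map_sum]
  refine sum_congr rfl fun m _ => ?_
  rw [map_mul, map_prod]
  congr 1
  have : φ.comp C = ZMod.castHom (dvd_refl 2) K := Subsingleton.elim _ _
  rw [← this]
  rfl

theorem delN_map {n : ℕ} {K : Type} [Field K] (φ : (ZMod 2)[X] →+* K) (H : List (ℕ × ℕ))
    (A : Matrix (Fin n) (Fin n) (ZMod 2)[X]) : (delN H A).map φ = delN H (A.map φ) := by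
  ext a b
  rw [Matrix.map_apply]
  unfold delN
  split_ifs <;> simp

end Pool.Agent.Lib.MP_0c183c_P9A
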