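import Pool.Agent.Lib.MP_0c183c_P9A.PFArr

/-! # Linear systems over the field with two elements -/

set_option autoImplicit false

namespace Pool.Agent.Lib.MP_0c183c_P9A

open Pool.Agent.Lib.PolyTree

/-- Two dimensional bit array. -/
abbrev LB := List (List Bool)

/-- Entry. -/
def g2 (v : LB) (p : ℕ × ℕ) : Bool := (v.getD p.1 []).getD p.2 false

/-- Table. -/
def tab2 (a b : ℕ) (f : ℕ × ℕ → Bool) : LB :=
  (List.range a).map fun i => (List.range b).map fun j => f (i, j)

theorem g2_tab2 {a b : ℕ} (f : ℕ × ℕ → Bool) {p : ℕ × ℕ} (h1 : p.1 < a) (h2 : p.2 < b) :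
    g2 (tab2 a b f) p = f p := by
  rw [g2, tab2, getD_map_range a _ _ h1, getD_map_range b _ _ h2]

/-- The positions. -/
def posL (a b : ℕ) : List (ℕ × ℕ) := (List.range a).flatMap fun i => (List.range b).map fun j => (i, j)

theorem mem_posL {a b : ℕ} {p : ℕ × ℕ} : p ∈ posL a b ↔ p.1 < a ∧ p.2 < b := by
  obtain ⟨i, j⟩ := p
  simp only [posL, List.mem_flatMap, List.mem_range, List.mem_map, Prod.mk.injEq]
  constructor
  · rintro ⟨i', hi, j', hj, rfl, rfl⟩
    exact ⟨hi, hj⟩
  · rintro ⟨hi, hj⟩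
    exact ⟨i, hi, j, hj, rfl, rfl⟩

/-- The vector with a pivot is added if there is a bit at the position. -/
def elim1 (a b : ℕ) (w : LB) (p : ℕ × ℕ) (v : LB) : LB :=
  if g2 v p = true then tab2 a b (fun q => xor (g2 v q) (g2 w q)) else v

/-- One step of the elimination. -/
def gstep (a b : ℕ) (st : List LB × LB) (p : ℕ × ℕ) : List LB × LB :=
  (st.1.find? fun v => g2 v p).elim st fun w => (st.1.map (elim1 a b w p), elim1 a b w p st.2)

/-- Membership in the span. -/
def inSpan (a b : ℕ) (vs : List LB) (s : LB) : Bool :=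
  (posL a b).all fun p => !(g2 ((posL a b).foldl (gstep a b) (vs, s)).2 p)

/-- A bit array as a vector. -/
def vec (a b : ℕ) (v : LB) : (ℕ × ℕ) → ZMod 2 := fun p =>
  if p.1 < a ∧ p.2 < b then bt (g2 v p) else 0

/-- The linear map of an elimination step. -/
def phi (w : (ℕ × ℕ) → ZMod 2) (p : ℕ × ℕ) :
    ((ℕ × ℕ) → ZMod 2) →ₗ[ZMod 2] ((ℕ × ℕ) → ZMod 2) :=
  LinearMap.id + (LinearMap.proj p).smulRight w

theorem phi_apply (w v : (ℕ × ℕ) → ZMod 2) (p : ℕ × ℕ) : phi w p v = v + v p • w := by
  simp [phi]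

theorem vec_elim1 {a b : ℕ} (w v : LB) {p : ℕ × ℕ} (hp : p.1 < a ∧ p.2 < b) :
    vec a b (elim1 a b w p v) = phi (vec a b w) p (vec a b v) := by
  rw [phi_apply]
  funext q
  rw [Pi.add_apply, Pi.smul_apply, smul_eq_mul]
  have h1 : vec a b v p = bt (g2 v p) := by rw [vec, if_pos hp]
  rw [h1]
  unfold elim1
  by_cases hb : g2 v p = true
  · rw [if_pos hb, hb, bt_true, one_mul]
    unfold vec
    by_cases hq : q.1 < a ∧ q.2 < b
    · simp only [if_pos hq]
      rw [g2_tab2 _ hq.1 hq.2, bt_xor]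
    · simp only [if_neg hq, add_zero]
  · rw [if_neg hb]
    rw [Bool.not_eq_true] at hb
    rw [hb, bt_false, zero_mul, add_zero]

/-- The span of a list of bit arrays. -/
def spn (a b : ℕ) (vs : List LB) : Submodule (ZMod 2) ((ℕ × ℕ) → ZMod 2) :=
  Submodule.span (ZMod 2) {u | ∃ v ∈ vs, vec a b v = u}

theorem gstep_spec {a b : ℕ} (st : List LB × LB) {p : ℕ × ℕ} (hp : p.1 < a ∧ p.2 < b) :
    (vec a b (gstep a b st p).2 ∈ spn a b (gstep a b st p).1 ↔ vec a b st.2 ∈ spn a b st.1) ∧
    (∀ v ∈ (gstep a b st p).1, g2 v p = false) ∧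
    (∀ q : ℕ × ℕ, q.1 < a ∧ q.2 < b → (∀ v ∈ st.1, g2 v q = false) →
      ∀ v ∈ (gstep a b st p).1, g2 v q = false) := by
  unfold gstep
  cases h : st.1.find? fun v => g2 v p with
  | none =>
    rw [Option.elim_none]
    refine ⟨Iff.rfl, ?_, fun q _ hq => hq⟩
    rw [List.find?_eq_none] at h
    intro v hv
    simpa using h v hv
  | some w =>
    rw [Option.elim_some]
    have hw := List.mem_of_find?_eq_some h
    have hwp : g2 w p = true := List.find?_some (p := fun v => g2 v p) h
    have hspan : spn a b (st.1.map (elim1 a b w p)) =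
        (spn a b st.1).map (phi (vec a b w) p) := by
      unfold spn
      rw [Submodule.map_span]
      congr 1
      ext u
      simp only [Set.mem_setOf_eq, List.mem_map, Set.mem_image]
      constructor
      · rintro ⟨v', ⟨v, hv, rfl⟩, rfl⟩
        exact ⟨_, ⟨v, hv, rfl⟩, (vec_elim1 w v hp).symm⟩
      · rintro ⟨_, ⟨v, hv, rfl⟩, rfl⟩
        exact ⟨_, ⟨v, hv, rfl⟩, vec_elim1 w v hp⟩
    have hws : vec a b w ∈ spn a b st.1 := Submodule.subset_span ⟨w, hw, rfl⟩
    have hzero : ∀ v : LB, ∀ q : ℕ × ℕ, q.1 < a ∧ q.2 < b →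
        (g2 v q = false) → (g2 w q = false) → g2 (elim1 a b w p v) q = false := by
      intro v q hq h1 h2
      unfold elim1
      split_ifs
      · rw [g2_tab2 _ hq.1 hq.2, h1, h2]
        rfl
      · exact h1
    refine ⟨?_, ?_, ?_⟩
    · simp only
      rw [hspan, vec_elim1 w st.2 hp]
      constructor
      · intro h1
        obtain ⟨u, hu, hu2⟩ := Submodule.mem_map.1 h1
        rw [phi_apply, phi_apply] at hu2
        have h3 : vec a b st.2 = u + u p • vec a b w - vec a b st.2 p • vec a b w := by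
          rw [hu2]
          simp
        rw [h3]
        exact Submodule.sub_mem _ (Submodule.add_mem _ hu (Submodule.smul_mem _ _ hws))
          (Submodule.smul_mem _ _ hws)
      · exact fun h1 => Submodule.mem_map_of_mem h1
    · intro v hv
      simp only [List.mem_map] at hv
      obtain ⟨v, -, rfl⟩ := hv
      unfold elim1
      split_ifs with h1
      · rw [g2_tab2 _ hp.1 hp.2, h1, hwp]
        rfl
      · simpa using h1
    · intro q hq hq2 v hv
      simp only [List.mem_map] at hv
      obtain ⟨v, hv, rfl⟩ := hv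
      exact hzero v q hq (hq2 v hv) (hq2 w hw)

theorem fold_spec {a b : ℕ} : ∀ (l : List (ℕ × ℕ)), (∀ p ∈ l, p.1 < a ∧ p.2 < b) →
    ∀ st : List LB × LB,
    (vec a b (l.foldl (gstep a b) st).2 ∈ spn a b (l.foldl (gstep a b) st).1 ↔
      vec a b st.2 ∈ spn a b st.1) ∧
    (∀ q : ℕ × ℕ, q.1 < a ∧ q.2 < b → (q ∈ l ∨ ∀ v ∈ st.1, g2 v q = false) →
      ∀ v ∈ (l.foldl (gstep a b) st).1, g2 v q = false) := by
  intro l
  induction l with
  | nil =>
    intro _ st
    refine ⟨Iff.rfl, ?_⟩
    rintro q _ (h | h)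
    · simp at h
    · exact h
  | cons p l ih =>
    intro hl st
    have hp := hl p (by simp)
    obtain ⟨h1, h2, h3⟩ := gstep_spec st hp
    obtain ⟨h4, h5⟩ := ih (fun q hq => hl q (by simp [hq])) (gstep a b st p)
    rw [List.foldl_cons]
    refine ⟨h4.trans h1, ?_⟩
    intro q hq hq2
    apply h5 q hq
    rcases hq2 with hq2 | hq2
    · rcases List.mem_cons.1 hq2 with rfl | hq2
      · right
        exact h2
      · left
        exact hq2
    · right
      exact h3 q hq hq2

theorem inSpan_iff {a b : ℕ} (vs : List LB) (s : LB) :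
    inSpan a b vs s = true ↔ vec a b s ∈ spn a b vs := by
  obtain ⟨h1, h2⟩ := fold_spec (posL a b) (fun p hp => mem_posL.1 hp) (vs, s)
  rw [← h1]
  have h3 : spn a b ((posL a b).foldl (gstep a b) (vs, s)).1 = ⊥ := by
    unfold spn
    rw [Submodule.span_eq_bot]
    rintro u ⟨v, hv, rfl⟩
    funext q
    unfold vec
    split_ifs with hq
    · rw [h2 q hq (Or.inl (mem_posL.2 hq)) v hv]
      rfl
    · rfl
  rw [h3, Submodule.mem_bot, inSpan, List.all_eq_true]
  constructor
  · intro h
    funext q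
    unfold vec
    split_ifs with hq
    · have := h q (mem_posL.2 hq)
      rw [Bool.not_eq_true'] at this
      rw [this]
      rfl
    · rfl
  · intro h q hq
    have h4 := congrFun h q
    unfold vec at h4
    rw [if_pos (mem_posL.1 hq)] at h4
    rw [Bool.not_eq_true']
    cases hb : g2 ((posL a b).foldl (gstep a b) (vs, s)).2 q
    · rfl
    · rw [hb] at h4
      simp at h4

/-! ### Polynomial time -/

variable {α : Type} [TEnc α]

@[fun_prop]
theorem PF.g2 {v : α → LB} {p : α → ℕ × ℕ} (hv : PF v) (hp : PF p) :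
    PF fun a => g2 (v a) (p a) := by
  unfold MP_0c183c_P9A.g2
  fun_prop

@[fun_prop]
theorem PF.tab2 {m n : α → ℕ} {f : α → ℕ × ℕ → Bool} (hm : PF m) (hn : PF n)
    (hf : PF fun p : α × ℕ × ℕ => f p.1 p.2) : PF fun a => tab2 (m a) (n a) (f a) := by
  unfold MP_0c183c_P9A.tab2
  refine PF.map (by fun_prop) (PF.map (by fun_prop) ?_)
  exact PF.comp (g := fun p : (α × ℕ) × ℕ => (p.1.1, p.1.2, p.2)) hf (by fun_prop)

@[fun_prop]
theorem PF.posL {m n : α → ℕ} (hm : PF m) (hn : PF n) : PF fun a => posL (m a) (n a) := by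
  unfold MP_0c183c_P9A.posL
  fun_prop

@[fun_prop]
theorem PF.elim1 {m n : α → ℕ} {w v : α → LB} {p : α → ℕ × ℕ} (hm : PF m) (hn : PF n)
    (hw : PF w) (hp : PF p) (hv : PF v) :
    PF fun a => elim1 (m a) (n a) (w a) (p a) (v a) := by
  unfold MP_0c183c_P9A.elim1
  fun_prop

@[fun_prop]
theorem PF.gstep {m n : α → ℕ} {st : α → List LB × LB} {p : α → ℕ × ℕ} (hm : PF m)
    (hn : PF n) (hst : PF st) (hp : PF p) :
    PF fun a => gstep (m a) (n a) (st a) (p a) := by
  unfold MP_0c183c_P9A.gstep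
  fun_prop

theorem tsz_elim1 (a b : ℕ) (w v : LB) (p : ℕ × ℕ) :
    tsz (elim1 a b w p v) ≤ max (tsz v) (a * (b * 4 + 2) + 1) := by
  unfold elim1
  split_ifs
  · refine le_trans ?_ (le_max_right _ _)
    unfold tab2
    refine tsz_list_le (by simp) fun r hr => ?_
    obtain ⟨i, -, rfl⟩ := List.mem_map.1 hr
    exact tsz_list_le (n := b) (b := 3) (by simp) fun b _ => tsz_bool_le b
  · exact le_max_left _ _

@[fun_prop]
theorem PF.inSpan {m n : α → ℕ} {vs : α → List LB} {s : α → LB} (hm : PF m)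
    (hn : PF n) (hvs : PF vs) (hs : PF s) :
    PF fun a => inSpan (m a) (n a) (vs a) (s a) := by
  unfold MP_0c183c_P9A.inSpan
  refine PF.all (by fun_prop) (PF.not (PF.g2 (PF.snd ?_) (by fun_prop)))
  refine PF.comp (f := fun a : α => List.foldl (MP_0c183c_P9A.gstep (m a) (n a)) (vs a, s a)
    (MP_0c183c_P9A.posL (m a) (n a))) (g := fun p : α × ℕ × ℕ => p.1) ?_ (by fun_prop)
  refine PF.foldl (B := fun a => (vs a).length * (tsz (vs a) + (m a * (n a * 4 + 2) + 1) + 1) + 1 +
    (tsz (s a) + (m a * (n a * 4 + 2) + 1)) + 1) ?_ (by fun_prop) (by fun_prop) (by fun_prop) ?_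
  · exact PF.gstep (by fun_prop) (by fun_prop) (by fun_prop) (by fun_prop)
  · intro a l _
    have key : ∀ (l : List (ℕ × ℕ)) (st : List LB × LB),
        (st.1.length = (vs a).length) →
        (∀ v ∈ st.1, tsz v ≤ tsz (vs a) + (m a * (n a * 4 + 2) + 1)) →
        (tsz st.2 ≤ tsz (s a) + (m a * (n a * 4 + 2) + 1)) →
        ((l.foldl (MP_0c183c_P9A.gstep (m a) (n a)) st).1.length = (vs a).length) ∧
        (∀ v ∈ (l.foldl (MP_0c183c_P9A.gstep (m a) (n a)) st).1,
          tsz v ≤ tsz (vs a) + (m a * (n a * 4 + 2) + 1)) ∧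
        (tsz (l.foldl (MP_0c183c_P9A.gstep (m a) (n a)) st).2 ≤
          tsz (s a) + (m a * (n a * 4 + 2) + 1)) := by
      intro l
      induction l with
      | nil => intro st h1 h2 h3; exact ⟨h1, h2, h3⟩
      | cons p l ih =>
        intro st h1 h2 h3
        rw [List.foldl_cons]
        apply ih
        · unfold MP_0c183c_P9A.gstep
          cases h : st.1.find? fun v => MP_0c183c_P9A.g2 v p with
          | none => exact h1
          | some w =>
            rw [Option.elim_some]
            simpa using h1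
        · unfold MP_0c183c_P9A.gstep
          cases h : st.1.find? fun v => MP_0c183c_P9A.g2 v p with
          | none => exact h2
          | some w =>
            rw [Option.elim_some]
            intro v hv
            obtain ⟨v', hv', rfl⟩ := List.mem_map.1 hv
            have := tsz_elim1 (m a) (n a) w v' p
            have := h2 v' hv'
            omega
        · unfold MP_0c183c_P9A.gstep
          cases h : st.1.find? fun v => MP_0c183c_P9A.g2 v p with
          | none => exact h3
          | some w =>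
            rw [Option.elim_some]
            have := tsz_elim1 (m a) (n a) w st.2 p
            simp only
            omega
    obtain ⟨h1, h2, h3⟩ := key l (vs a, s a) rfl
      (fun v hv => (tsz_mem hv).le.trans (Nat.le_add_right _ _)) (Nat.le_add_right _ _)
    rw [tsz_pair]
    have h4 := tsz_list_le h1.le h2
    omega

end Pool.Agent.Lib.MP_0c183c_P9A
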