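import Pool.Agent.Lib.MP_0c183c_h75B.Generic

/-! # Minors of the inverse as determinants, the criterion for stuck points -/

set_option autoImplicit false

namespace Pool.Agent.Lib.MP_0c183c_P9A

open Matrix Finset Polynomial
open Pool.Agent.Lib.MP_0c183c_h75B (IsAltOn Ed pX Stuck generic_of_stuck)

section
variable {V : Type*} [Fintype V] [DecidableEq V]

/-- The rows with indices `x' i` are replaced by the unit vectors of `x i`. -/
noncomputable def repF {R : Type*} [Zero R] [One R] {k : ℕ} (x x' : Fin k → V)
    (A : Matrix V V R) : Matrix V V R := by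
  classical
  exact fun a b => if h : ∃ i, x' i = a then (if b = x h.choose then 1 else 0) else A a b

omit [Fintype V] in
theorem repF_row {R : Type*} [Zero R] [One R] {k : ℕ} (x : Fin k → V) {x' : Fin k → V}
    (hx' : Function.Injective x') (A : Matrix V V R) (i : Fin k) (b : V) :
    repF x x' A (x' i) b = if b = x i then 1 else 0 := by
  unfold repF
  have h : ∃ j, x' j = x' i := ⟨i, rfl⟩
  rw [dif_pos h, hx' h.choose_spec]

omit [Fintype V] in
theorem repF_row' {R : Type*} [Zero R] [One R] {k : ℕ} (x x' : Fin k → V)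
    (A : Matrix V V R) {a : V} (ha : ¬ ∃ i, x' i = a) (b : V) :
    repF x x' A a b = A a b := by
  unfold repF
  rw [dif_neg ha]

/-- The minors of the inverse. -/
theorem det_repF {K : Type*} [Field K] {A P : Matrix V V K} (h : A * P = 1) {k : ℕ}
    (x : Fin k → V) {x' : Fin k → V} (hx' : Function.Injective x') :
    (repF x x' A).det = A.det * (P.submatrix x x').det := by
  classical
  set p : V → Prop := fun a => ∃ i, x' i = a with hp
  have hAP : ∀ a c, ∑ z, A a z * P z c = if a = c then 1 else 0 := by
    intro a c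
    have := congrFun (congrFun h a) c
    rwa [Matrix.mul_apply, Matrix.one_apply] at this
  have h1 : ∀ i c, (repF x x' A * P) (x' i) c = P (x i) c := by
    intro i c
    rw [Matrix.mul_apply]
    simp only [repF_row x hx']
    simp
  have h2 : ∀ a, ¬ p a → ∀ c, (repF x x' A * P) a c = if a = c then 1 else 0 := by
    intro a ha c
    rw [Matrix.mul_apply, ← hAP]
    refine sum_congr rfl fun z _ => ?_
    rw [repF_row' x x' A ha]
  have h3 : (repF x x' A * P).det = (P.submatrix x x').det := by
    rw [Matrix.twoBlockTriangular_det _ p]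
    · have e1 : ((repF x x' A * P).toSquareBlockProp fun i => ¬ p i) = 1 := by
        ext ⟨a, ha⟩ ⟨b, hb⟩
        rw [Matrix.toSquareBlockProp_def, Matrix.of_apply, h2 a ha, Matrix.one_apply]
        simp
      rw [e1, Matrix.det_one, mul_one]
      have he : Function.Bijective (fun i : Fin k => (⟨x' i, ⟨i, rfl⟩⟩ : {a // p a})) := by
        constructor
        · intro i j hij
          exact hx' (congrArg Subtype.val hij)
        · rintro ⟨a, i, rfl⟩
          exact ⟨i, rfl⟩
      rw [← Matrix.det_submatrix_equiv_self (Equiv.ofBijective _ he)]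
      congr 1
      ext i j
      rw [Matrix.submatrix_apply, Matrix.submatrix_apply, Matrix.toSquareBlockProp_def,
        Matrix.of_apply]
      exact h1 i (x' j)
    · intro i hi j hj
      rw [h2 i hi, if_neg]
      rintro rfl
      exact hi hj
  rw [Matrix.det_mul] at h3
  have h4 : A.det * P.det = 1 := by rw [← Matrix.det_mul, h, Matrix.det_one]
  rw [← h3]
  linear_combination (-(repF x x' A).det) * h4

theorem inv_symm {K : Type*} [Field K] {A P : Matrix V V K} (hs : ∀ u v, A u v = A v u)
    (hPA : P * A = 1) (u t : V) : P u t = P t u := by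
  have hAP : A * P = 1 := mul_eq_one_comm.1 hPA
  have h1 : Pᵀ * A = 1 := by
    have hA' : Aᵀ = A := by ext i j; exact hs j i
    rw [← hA', ← Matrix.transpose_mul, hAP, Matrix.transpose_one]
  have h2 : Pᵀ = P := by
    calc Pᵀ = Pᵀ * (A * P) := by rw [hAP, Matrix.mul_one]
      _ = P := by rw [← Matrix.mul_assoc, h1, Matrix.one_mul]
  exact (congrFun (congrFun h2 u) t).symm

omit [DecidableEq V] in
theorem alt_form {K : Type*} [Field K] [CharP K 2] {A : Matrix V V K}
    (hs : ∀ u v, A u v = A v u) (h0 : ∀ v, A v v = 0)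
    (x : V → K) : ∑ i, ∑ j, x i * A i j * x j = 0 := by
  rw [← sum_product']
  refine sum_involution (fun p _ => (p.2, p.1)) ?_ ?_ (fun _ _ => mem_univ _) (fun _ _ => rfl)
  · intro p _
    simp only
    rw [hs p.2 p.1, show x p.2 * A p.1 p.2 * x p.1 = x p.1 * A p.1 p.2 * x p.2 by ring]
    exact CharTwo.add_self_eq_zero _
  · intro p _ hne heq
    apply hne
    have : p.2 = p.1 := congrArg Prod.fst heq
    rw [this, h0, mul_zero, zero_mul]

theorem inv_diag {K : Type*} [Field K] [CharP K 2] {A P : Matrix V V K}
    (hs : ∀ u v, A u v = A v u)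
    (h0 : ∀ v, A v v = 0) (hPA : P * A = 1) (v : V) : P v v = 0 := by
  have h1 : P v v = ∑ i, ∑ j, P v i * A i j * P v j := by
    have h2 : P * A * P = P := by rw [hPA, Matrix.one_mul]
    calc P v v = (P * A * P) v v := by rw [h2]
      _ = ∑ j, ∑ i, P v i * A i j * P v j := by
          rw [Matrix.mul_apply]
          refine sum_congr rfl fun j _ => ?_
          rw [Matrix.mul_apply, sum_mul, inv_symm hs hPA j v]
      _ = _ := sum_comm
  rw [h1]
  exact alt_form hs h0 _

/-- The value of an edge is changed. -/
def upd {R : Type*} (A : Matrix V V R) (v w : V) (τ : R) : Matrix V V R := fun a b =>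
  if (a = v ∧ b = w) ∨ (a = w ∧ b = v) then τ else A a b

/-- A change of the value of one edge changes the inverse by a matrix of rank two. -/
theorem move_inv {K : Type*} [Field K] [CharP K 2] {A P : Matrix V V K}
    (hs : ∀ u v, A u v = A v u) (h0 : ∀ v, P v v = 0) (hPA : P * A = 1) {v w : V} (hvw : v ≠ w)
    {τ : K} (hτ : 1 + τ * P v w ≠ 0) :
    (P + τ • Ed P v w) * (upd A v w (A v w + τ / (1 + τ * P v w))) = 1 := by
  have hAP : A * P = 1 := mul_eq_one_comm.1 hPA
  have hPs : ∀ u t, P u t = P t u := inv_symm hs hPA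
  have hrow : ∀ u t, ∑ z, P u z * A z t = if u = t then 1 else 0 := by
    intro u t
    have := congrFun (congrFun hPA u) t
    rwa [Matrix.mul_apply, Matrix.one_apply] at this
  set s := τ / (1 + τ * P v w) with hsd
  have hs1 : s * (1 + τ * P v w) = τ := div_mul_cancel₀ _ hτ
  ext x y
  rw [Matrix.mul_apply, Matrix.one_apply]
  have e0 : ∀ z, upd A v w (A v w + s) z y = A z y + s * ((if z = v ∧ y = w then 1 else 0) +
      (if z = w ∧ y = v then 1 else 0)) := by
    intro z
    unfold upd
    by_cases h1 : z = v ∧ y = w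
    · obtain ⟨rfl, rfl⟩ := h1
      have h2 : ¬ (z = y ∧ y = z) := fun h => hvw h.1
      simp [h2]
    · by_cases h2 : z = w ∧ y = v
      · obtain ⟨rfl, rfl⟩ := h2
        simp only [h1, false_or, and_self, if_true, if_false, zero_add, mul_one]
        rw [hs z y]
      · simp [h1, h2]
  have e1 : ∀ z, (P + τ • Ed P v w) x z * (upd A v w (A v w + s)) z y =
      P x z * A z y + (τ * P x v) * (P w z * A z y) + (τ * P x w) * (P v z * A z y) +
      s * ((P x z + τ * (P x v * P w z + P x w * P v z)) * ((if z = v ∧ y = w then 1 else 0) +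
        (if z = w ∧ y = v then 1 else 0))) := by
    intro z
    rw [e0]
    simp only [Matrix.add_apply, Matrix.smul_apply, smul_eq_mul, Ed, Matrix.of_apply]
    ring
  rw [sum_congr rfl fun z _ => e1 z]
  simp only [sum_add_distrib, ← mul_sum, hrow]
  have e2 : ∀ F : V → K, ∑ z, F z * ((if z = v ∧ y = w then 1 else 0) +
        (if z = w ∧ y = v then 1 else 0)) = (if y = w then F v else 0) + (if y = v then F w else 0) := by
    intro F
    simp only [mul_add, sum_add_distrib]
    congr 1
    · by_cases hy : y = w
      · simp [hy]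
      · simp [hy]
    · by_cases hy : y = v
      · simp [hy]
      · simp [hy]
  rw [e2 (fun z => P x z + τ * (P x v * P w z + P x w * P v z))]
  have h2 : (2 : K) = 0 := CharTwo.two_eq_zero
  have hww : P w w = 0 := h0 w
  have hvv : P v v = 0 := h0 v
  have hwv : P w v = P v w := hPs w v
  have p1 : τ * P x v * (if w = y then 1 else 0) +
      s * (if y = w then P x v + τ * (P x v * P w v + P x w * P v v) else 0) = 0 := by
    by_cases h : y = w
    · rw [if_pos h.symm, if_pos h, hvv, hwv]
      linear_combination (P x v) * hs1 + τ * P x v * h2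
    · rw [if_neg (Ne.symm h), if_neg h]
      ring
  have p2 : τ * P x w * (if v = y then 1 else 0) +
      s * (if y = v then P x w + τ * (P x v * P w w + P x w * P v w) else 0) = 0 := by
    by_cases h : y = v
    · rw [if_pos h.symm, if_pos h, hww]
      linear_combination (P x w) * hs1 + τ * P x w * h2
    · rw [if_neg (Ne.symm h), if_neg h]
      ring
  linear_combination p1 + p2

omit [Fintype V] in
theorem pX_eval {K : Type*} [Field K] (P : Matrix V V K) (v w : V) {k : ℕ} (x x' : Fin k → V)
    (t : K) : (((pX P v w).submatrix x x').det).eval t =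
      ((P + t • Ed P v w).submatrix x x').det := by
  rw [← Polynomial.coe_evalRingHom, RingHom.map_det]
  congr 1
  ext i j
  simp only [pX, RingHom.mapMatrix_apply, Matrix.map_apply, Matrix.submatrix_apply,
    Matrix.add_apply, Matrix.smul_apply, smul_eq_mul, coe_evalRingHom, eval_add, eval_mul,
    eval_C, eval_X]

/-- If the vanishing determinants stay zero for all changes of the value of one edge, then the
point is stuck. -/
theorem stuck_of_noimp {K : Type*} [Field K] [CharP K 2] [Infinite K] {G : SimpleGraph V}
    {A P : Matrix V V K} (hA : IsAltOn G A) (hAP : A * P = 1) {c : ℕ}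
    (h : ∀ k ≤ c, ∀ x x' : Fin k → V, Function.Injective x' → (repF x x' A).det = 0 →
      ∀ v w, G.Adj v w → ∀ τ : K, (repF x x' (upd A v w τ)).det = 0) : Stuck G P c := by
  have hPA : P * A = 1 := mul_eq_one_comm.1 hAP
  intro k hk x x' h0 v w hvw
  by_cases hx' : Function.Injective x'
  · have h1 : (repF x x' A).det = 0 := by rw [det_repF hAP x hx', h0, mul_zero]
    apply Polynomial.eq_zero_of_infinite_isRoot
    have h2 : ∀ t : K, 1 + t * P v w ≠ 0 → IsRoot (((pX P v w).submatrix x x').det) t := by
      intro t ht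
      rw [IsRoot, pX_eval]
      have h3 := move_inv hA.symm (inv_diag hA.symm hA.diag hPA) hPA hvw.ne ht
      have h4 : upd A v w (A v w + t / (1 + t * P v w)) * (P + t • Ed P v w) = 1 :=
        mul_eq_one_comm.1 h3
      have h5 := h k hk x x' hx' h1 v w hvw (A v w + t / (1 + t * P v w))
      rw [det_repF h4 x hx'] at h5
      rcases mul_eq_zero.1 h5 with h6 | h6
      · exfalso
        have h7 := congrArg Matrix.det h4
        rw [Matrix.det_mul, h6, zero_mul, Matrix.det_one] at h7
        exact zero_ne_one h7
      · exact h6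
    have hfin : ({t : K | 1 + t * P v w = 0}).Finite := by
      by_cases hp : P v w = 0
      · have : {t : K | 1 + t * P v w = 0} = ∅ := by
          ext t
          simp [hp]
        rw [this]
        exact Set.finite_empty
      · refine Set.Finite.subset (Set.finite_singleton (-1 / P v w)) fun t ht => ?_
        rw [Set.mem_singleton_iff, eq_div_iff hp]
        have ht' : 1 + t * P v w = 0 := ht
        linear_combination ht'
    refine Set.Infinite.mono (s := {t : K | 1 + t * P v w = 0}ᶜ) (fun t ht => h2 t ht) ?_
    exact hfin.infinite_compl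
  · rw [Function.Injective] at hx'
    push Not at hx'
    obtain ⟨i, j, hij, hne⟩ := hx'
    exact Matrix.det_zero_of_column_eq hne fun a => by
      rw [Matrix.submatrix_apply, Matrix.submatrix_apply, hij]

theorem natDegree_det_le {R : Type*} [CommRing R] (M : Matrix V V R[X]) {d : ℕ}
    (h : ∀ u v, (M u v).natDegree ≤ d) : M.det.natDegree ≤ Fintype.card V * d := by
  rw [Matrix.det_apply]
  refine natDegree_sum_le_of_forall_le _ _ fun σ _ => ?_
  refine (natDegree_smul_le _ _).trans ?_
  refine (natDegree_prod_le _ _).trans ?_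
  refine (sum_le_sum fun i _ => h (σ i) i).trans ?_
  simp

/-- Many values: a value which is good for all tests. -/
theorem exists_good {K : Type*} [Field K] {ι : Type*} (T : List ι) (q : ι → K[X]) {m : ℕ}
    (hq : ∀ l ∈ T, (q l).natDegree ≤ m) (S : Finset K) (hS : m * T.length < S.card) :
    ∃ τ ∈ S, ∀ l ∈ T, q l ≠ 0 → (q l).eval τ ≠ 0 := by
  classical
  set Q : K[X] := (T.map fun l => if q l = 0 then 1 else q l).prod with hQ
  have hQ0 : Q ≠ 0 := by
    rw [hQ]
    apply List.prod_ne_zero
    intro h
    obtain ⟨l, -, hl⟩ := List.mem_map.1 h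
    split_ifs at hl with h1
    · exact one_ne_zero hl
    · exact h1 hl
  have hdeg : Q.natDegree ≤ m * T.length := by
    rw [hQ]
    refine (Polynomial.natDegree_list_prod_le _).trans ?_
    rw [List.map_map]
    refine (List.sum_le_card_nsmul _ m ?_).trans ?_
    · intro a ha
      obtain ⟨l, hl, rfl⟩ := List.mem_map.1 ha
      rw [Function.comp_apply]
      split_ifs
      · simp
      · exact hq l hl
    · rw [List.length_map, smul_eq_mul, mul_comm]
  obtain ⟨τ, hτ, hτ2⟩ : ∃ τ ∈ S, Q.eval τ ≠ 0 := by
    by_contra hcon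
    push Not at hcon
    exact hQ0 (Polynomial.eq_zero_of_natDegree_lt_card_of_eval_eq_zero' Q S hcon
      (lt_of_le_of_lt hdeg hS))
  refine ⟨τ, hτ, fun l hl hne h0 => hτ2 ?_⟩
  rw [hQ, ← Polynomial.coe_evalRingHom, map_list_prod, List.prod_eq_zero_iff]
  rw [List.mem_map]
  refine ⟨_, List.mem_map.2 ⟨l, hl, rfl⟩, ?_⟩
  rw [if_neg hne]
  exact h0

end

end Pool.Agent.Lib.MP_0c183c_P9A
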