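import Pool.Agent.Lib.MP_0c183c_P9A.StuckRun
import Pool.Agent.Lib.MP_0c183c_P9A.Interface

/-! # An unpaired vertex shows that there is no perfect matching -/

set_option autoImplicit false

namespace Pool.Agent.Lib.MP_0c183c_P9A

open Pool.Agent.Lib.PolyTree Pool.Agent.Lib.FOLFP Matrix Finset Polynomial
open Pool.Agent.Lib.MP_0c183c_h75B (IsAltOn Stuck generic_of_stuck)
open Pool.Agent.Lib.MP_0c183c_co (IsPM InG)

/-- Interpolation between the matching `m` and the matrix `A` on the first block. -/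
def ZZ {n : ℕ} {R : Type} [CommRing R] (A : Matrix (Fin (n + n)) (Fin (n + n)) R)
    (m : Equiv.Perm (Fin n)) (t : R) : Matrix (Fin (n + n)) (Fin (n + n)) R := fun a b =>
  if h : (a : ℕ) < n ∧ (b : ℕ) < n then
    (1 + t) * (if m ⟨a, h.1⟩ = ⟨b, h.2⟩ then 1 else 0) + t * A a b else A a b

theorem ZZ_map {n : ℕ} {R R' : Type} [CommRing R] [CommRing R'] (φ : R →+* R')
    (A : Matrix (Fin (n + n)) (Fin (n + n)) R) (m : Equiv.Perm (Fin n)) (t : R) :
    (ZZ A m t).map φ = ZZ (A.map φ) m (φ t) := by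
  ext a b
  rw [Matrix.map_apply]
  unfold ZZ
  split_ifs <;> simp

theorem ZZ_one {n : ℕ} {R : Type} [CommRing R] [CharP R 2]
    (A : Matrix (Fin (n + n)) (Fin (n + n)) R) (m : Equiv.Perm (Fin n)) : ZZ A m 1 = A := by
  ext a b
  unfold ZZ
  have : (1 + 1 : R) = 0 := CharTwo.add_self_eq_zero 1
  split_ifs <;> simp [this]

/-- The block of the original vertices. -/
abbrev blk {n : ℕ} {R : Type} (A : Matrix (Fin (n + n)) (Fin (n + n)) R) :
    Matrix (Fin n) (Fin n) R := A.submatrix (Fin.castAdd n) (Fin.castAdd n)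

theorem blk_ZZ_zero {n : ℕ} {R : Type} [CommRing R]
    (A : Matrix (Fin (n + n)) (Fin (n + n)) R) {m : Equiv.Perm (Fin n)} (hm : IsPM m) :
    blk (ZZ A m 0) * blk (ZZ A m 0) = 1 := by
  have h1 : ∀ a b, blk (ZZ A m 0) a b = if m a = b then 1 else 0 := by
    intro a b
    change ZZ A m 0 (Fin.castAdd n a) (Fin.castAdd n b) = _
    unfold ZZ
    rw [dif_pos ⟨by simp, by simp⟩]
    simp
  ext a b
  rw [Matrix.mul_apply, Matrix.one_apply]
  simp only [h1]
  rw [sum_eq_single (m a)]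
  · rw [if_pos rfl, one_mul, (hm a).2]
  · intro j _ hj
    rw [if_neg (Ne.symm hj), zero_mul]
  · intro h
    exact absurd (mem_univ _) h

theorem exists_t {n : ℕ} {K : Type} [Field K] [CharP K 2] [Infinite K]
    (A : Matrix (Fin (n + n)) (Fin (n + n)) K) (hA : A.det ≠ 0) {m : Equiv.Perm (Fin n)}
    (hm : IsPM m) : ∃ t : K, (ZZ A m t).det ≠ 0 ∧ (blk (ZZ A m t)).det ≠ 0 := by
  have e1 : ∀ t : K, ((ZZ (A.map C) m X).det).eval t = (ZZ A m t).det := by
    intro t
    rw [← Polynomial.coe_evalRingHom, RingHom.map_det, RingHom.mapMatrix_apply, ZZ_map]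
    congr 2
    · ext a b; simp
    · simp
  have e2 : ∀ t : K, ((blk (ZZ (A.map C) m X)).det).eval t = (blk (ZZ A m t)).det := by
    intro t
    rw [← Polynomial.coe_evalRingHom, RingHom.map_det, RingHom.mapMatrix_apply]
    have : (blk (ZZ (A.map C) m X)).map (evalRingHom t) =
        blk ((ZZ (A.map C) m X).map (evalRingHom t)) := rfl
    rw [this, ZZ_map]
    congr 3
    · ext a b; simp
    · simp
  have h1 : (ZZ (A.map C) m X).det ≠ 0 := by
    intro h
    have := e1 1
    rw [h, eval_zero, ZZ_one] at this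
    exact hA this.symm
  have h2 : (blk (ZZ (A.map C) m X)).det ≠ 0 := by
    intro h
    have h3 := e2 0
    rw [h, eval_zero] at h3
    have h4 := congrArg Matrix.det (blk_ZZ_zero A hm)
    rw [Matrix.det_mul, ← h3, zero_mul, Matrix.det_one] at h4
    exact zero_ne_one h4
  have h3 := mul_ne_zero h1 h2
  obtain ⟨t, ht⟩ : ∃ t : K, ((ZZ (A.map C) m X).det * (blk (ZZ (A.map C) m X)).det).eval t ≠ 0 := by
    by_contra hcon
    push Not at hcon
    apply h3
    apply Polynomial.funext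
    intro t
    rw [hcon t, eval_zero]
  rw [eval_mul, e1, e2] at ht
  exact ⟨t, left_ne_zero_of_mul ht, right_ne_zero_of_mul ht⟩

variable (c : ℕ) (I : Graph)

/-- Entries between an original vertex and a copy. -/
theorem mat_cross {y : List (ℕ × ℕ × ℕ)} {σ : List (ℕ × ℕ)} (v j : Fin I.n)
    (h : ¬ (j = v ∧ unp σ v = true)) :
    matS I.encode I.n y σ (Fin.castAdd I.n v) (Fin.natAdd I.n j) = 0 := by
  unfold matS entS
  rw [if_neg]
  unfold gadj
  have h1 : ((Fin.castAdd I.n v : Fin (I.n + I.n)) : ℕ) = v := rfl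
  have h2 : ((Fin.natAdd I.n j : Fin (I.n + I.n)) : ℕ) = I.n + j := rfl
  rw [h1, h2, if_pos v.2, if_neg (by omega)]
  intro h3
  rw [Bool.and_eq_true, decide_eq_true_eq] at h3
  apply h
  exact ⟨Fin.ext (by omega), h3.2⟩

/-- Entries between copies, one of them unpaired. -/
theorem mat_copies {y : List (ℕ × ℕ × ℕ)} {σ : List (ℕ × ℕ)} (u j : Fin I.n)
    (h : unp σ u = true) :
    matS I.encode I.n y σ (Fin.natAdd I.n u) (Fin.natAdd I.n j) = 0 := by
  unfold matS entS
  rw [if_neg]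
  unfold gadj
  have h1 : ((Fin.natAdd I.n u : Fin (I.n + I.n)) : ℕ) = I.n + u := rfl
  have h2 : ((Fin.natAdd I.n j : Fin (I.n + I.n)) : ℕ) = I.n + j := rfl
  rw [h1, h2, if_neg (by omega), if_neg (by omega), Nat.add_sub_cancel_left,
    Nat.add_sub_cancel_left, (inP_false h).1]
  simp

theorem addable_iff (hn : 1 < I.n) {st : List (ℕ × ℕ × ℕ) × List (ℕ × ℕ)} (h : Inv c I st)
    {u v : Fin I.n} (huv : u < v) (hu : unp st.2 u = true) (hv : unp st.2 v = true)
    (hadd : addable c I.encode st ((u : ℕ), (v : ℕ)) = false) :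
    ((stM I st).map φK)⁻¹ (Fin.natAdd I.n u) (Fin.natAdd I.n v) = 0 := by
  have hdet : ((stM I st).map φK).det ≠ 0 := det_map_ne_zero.2 h.2
  have hAP : (stM I st).map φK * ((stM I st).map φK)⁻¹ = 1 :=
    Matrix.mul_nonsing_inv _ (isUnit_iff_ne_zero.2 hdet)
  have h1 : nzT (DD (I.n + I.n) (tests c I.n).length) (I.n + I.n)
      (matL (DD (I.n + I.n) (tests c I.n).length) I.encode I.n st.1 st.2)
      [(I.n + (u : ℕ), I.n + (v : ℕ))] = false := by
    unfold addable at hadd
    rw [nOf_encode, hu, hv, decide_eq_true (show ((u : ℕ), (v : ℕ)).1 < ((u : ℕ), (v : ℕ)).2 from huv)]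
      at hadd
    simpa using hadd
  have h2 : (repS [(I.n + (u : ℕ), I.n + (v : ℕ))] (stM I st)).det = 0 := by
    by_contra hne
    rw [← ne_eq, ← nz_iff c I hn h.1 (σ := st.2)] at hne
    rw [hne] at h1
    exact Bool.noConfusion h1
  have e1 : repS [(I.n + (u : ℕ), I.n + (v : ℕ))] (stM I st) =
      repF ![Fin.natAdd I.n u] ![Fin.natAdd I.n v] (stM I st) := by
    rw [repF_eq (m := I.n + I.n) (k := 1) ![Fin.natAdd I.n u] (x' := ![Fin.natAdd I.n v])
      (fun i j _ => Subsingleton.elim i j) (stM I st)]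
    rfl
  rw [e1] at h2
  have h3 : (repF ![Fin.natAdd I.n u] ![Fin.natAdd I.n v] ((stM I st).map φK)).det = 0 := by
    by_contra hne
    have : repF ![Fin.natAdd I.n u] ![Fin.natAdd I.n v] ((stM I st).map φK) =
        (repF ![Fin.natAdd I.n u] ![Fin.natAdd I.n v] (stM I st)).map φK := by
      rw [repF_eq (m := I.n + I.n) (k := 1) ![Fin.natAdd I.n u] (x' := ![Fin.natAdd I.n v])
        (fun i j _ => Subsingleton.elim i j), repF_eq (m := I.n + I.n) (k := 1)
        ![Fin.natAdd I.n u] (x' := ![Fin.natAdd I.n v])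
        (fun i j _ => Subsingleton.elim i j), repS_map]
    rw [this, ← ne_eq, det_map_ne_zero] at hne
    exact hne h2
  rw [det_repF hAP ![Fin.natAdd I.n u] (fun i j _ => Subsingleton.elim i j)] at h3
  rcases mul_eq_zero.1 h3 with h4 | h4
  · exact absurd h4 hdet
  · rw [Matrix.det_fin_one] at h4
    exact h4

/-- If a vertex stays unpaired then the graph has no perfect matching. -/
theorem no_pm (hn : 1 < I.n) (hc : 1 ≤ c) {u : Fin I.n}
    (hu : unp (run c I.encode).2 u = true) {m : Equiv.Perm (Fin I.n)} (hm : IsPM m)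
    (hmG : InG I.G m) : False := by
  have hinv := inv_run c I hn
  have hstuck := stuck_run c I hn
  obtain ⟨-, hfix⟩ := run_fixed c I.encode
  set st := run c I.encode with hst
  set A := (stM I st).map φK with hAdef
  have hdet : A.det ≠ 0 := det_map_ne_zero.2 hinv.2
  have hAP : A * A⁻¹ = 1 := Matrix.mul_nonsing_inv _ (isUnit_iff_ne_zero.2 hdet)
  have hPA : A⁻¹ * A = 1 := mul_eq_one_comm.1 hAP
  have hon : IsAltOn (GG I st.2) A := altOn_mat I st.1 st.2
  have hP : ∀ v : Fin I.n, v ≠ u → unp st.2 v = true →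
      A⁻¹ (Fin.natAdd I.n u) (Fin.natAdd I.n v) = 0 := by
    intro v hne hv
    rcases lt_or_gt_of_ne hne with h | h
    · rw [inv_symm hon.symm hPA]
      refine addable_iff c I hn hinv h hv hu (hfix _ ?_)
      rw [nOf_encode]
      exact mem_posL.2 ⟨v.2, u.2⟩
    · refine addable_iff c I hn hinv h hu hv (hfix _ ?_)
      rw [nOf_encode]
      exact mem_posL.2 ⟨u.2, v.2⟩
  obtain ⟨t, ht1, ht2⟩ := exists_t A hdet hm
  set Z := ZZ A m t with hZ
  have hcases : ∀ a : Fin (I.n + I.n), (∃ v, a = Fin.castAdd I.n v) ∨ ∃ v, a = Fin.natAdd I.n v := by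
    intro a
    refine Fin.addCases (fun v => Or.inl ⟨v, rfl⟩) (fun v => Or.inr ⟨v, rfl⟩) a
  have hZon : IsAltOn (GG I st.2) Z := by
    have hval : ∀ a b, Z a b = if h : (a : ℕ) < I.n ∧ (b : ℕ) < I.n then
        (1 + t) * (if m ⟨a, h.1⟩ = ⟨b, h.2⟩ then 1 else 0) + t * A a b else A a b := fun _ _ => rfl
    refine ⟨fun a b => ?_, fun a => ?_, fun a b hab => ?_⟩
    · rw [hval, hval]
      by_cases h : (a : ℕ) < I.n ∧ (b : ℕ) < I.n
      · rw [dif_pos h, dif_pos ⟨h.2, h.1⟩, hon.symm a b]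
        congr 2
        have : m ⟨a, h.1⟩ = ⟨b, h.2⟩ ↔ m ⟨b, h.2⟩ = ⟨a, h.1⟩ := by
          constructor
          · intro h1
            rw [← h1, (hm _).2]
          · intro h1
            rw [← h1, (hm _).2]
        simp only [this]
      · rw [dif_neg h, dif_neg (fun h' => h ⟨h'.2, h'.1⟩), hon.symm a b]
    · rw [hval]
      by_cases h : (a : ℕ) < I.n ∧ (a : ℕ) < I.n
      · rw [dif_pos h, if_neg (hm _).1, hon.diag a]
        simp
      · rw [dif_neg h, hon.diag a]
    · rw [hval] at hab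
      by_cases h : (a : ℕ) < I.n ∧ (b : ℕ) < I.n
      · rw [dif_pos h] at hab
        by_cases h1 : m ⟨a, h.1⟩ = ⟨b, h.2⟩
        · change gadj I.encode I.n st.2 a b = true
          unfold gadj
          rw [if_pos h.1, if_pos h.2]
          have := hmG ⟨a, h.1⟩
          rw [h1] at this
          exact (adjOf_encode I ⟨a, h.1⟩ ⟨b, h.2⟩).2 this
        · rw [if_neg h1, mul_zero, zero_add] at hab
          exact hon.supp a b (right_ne_zero_of_mul hab)
      · rw [dif_neg h] at hab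
        exact hon.supp a b hab
  have hZQ : Z * Z⁻¹ = 1 := Matrix.mul_nonsing_inv _ (isUnit_iff_ne_zero.2 ht1)
  have hQZ : Z⁻¹ * Z = 1 := mul_eq_one_comm.1 hZQ
  have hQ : ∀ v : Fin I.n, unp st.2 v = true →
      Z⁻¹ (Fin.natAdd I.n v) (Fin.natAdd I.n u) = 0 := by
    intro v hv
    by_cases hne : v = u
    · rw [hne]
      exact inv_diag hZon.symm hZon.diag hQZ _
    · rw [inv_symm hZon.symm hQZ]
      have h1 := generic_of_stuck (GG I st.2) A A⁻¹ Z Z⁻¹ hon hAP hZon hZQ hstuck hc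
        ![Fin.natAdd I.n u] ![Fin.natAdd I.n v] (by
          rw [Matrix.det_fin_one]
          exact hP v hne hv)
      rw [Matrix.det_fin_one] at h1
      exact h1
  have hrow : ∀ a b, ∑ j, Z a j * Z⁻¹ j b = if a = b then 1 else 0 := by
    intro a b
    have := congrFun (congrFun hZQ a) b
    rwa [Matrix.mul_apply, Matrix.one_apply] at this
  have hZcross : ∀ v j : Fin I.n, Z (Fin.castAdd I.n v) (Fin.natAdd I.n j) =
      A (Fin.castAdd I.n v) (Fin.natAdd I.n j) := by
    intro v j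
    rw [hZ]
    unfold ZZ
    rw [dif_neg]
    simp
  -- the vector
  have h1 : blk Z *ᵥ (fun j => Z⁻¹ (Fin.castAdd I.n j) (Fin.natAdd I.n u)) = 0 := by
    funext v
    have h2 := hrow (Fin.castAdd I.n v) (Fin.natAdd I.n u)
    rw [Fin.sum_univ_add] at h2
    have h3 : ∑ j, Z (Fin.castAdd I.n v) (Fin.natAdd I.n j) *
        Z⁻¹ (Fin.natAdd I.n j) (Fin.natAdd I.n u) = 0 := by
      refine sum_eq_zero fun j _ => ?_
      by_cases hj : j = v ∧ unp st.2 v = true
      · rw [hQ j (by rw [hj.1]; exact hj.2), mul_zero]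
      · rw [hZcross]
        have : A (Fin.castAdd I.n v) (Fin.natAdd I.n j) = 0 := by
          rw [hAdef, Matrix.map_apply]
          unfold stM
          rw [mat_cross I v j hj, map_zero]
        rw [this, zero_mul]
    rw [h3, add_zero, if_neg] at h2
    · exact h2
    · intro h
      have := congrArg Fin.val h
      simp at this
      omega
  have h2 := Matrix.eq_zero_of_mulVec_eq_zero ht2 h1
  have h3 := hrow (Fin.natAdd I.n u) (Fin.natAdd I.n u)
  rw [Fin.sum_univ_add, if_pos rfl] at h3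
  apply zero_ne_one (α := KK)
  rw [← h3]
  symm
  rw [add_eq_zero_iff_eq_neg]
  have h4 : ∑ j, Z (Fin.natAdd I.n u) (Fin.castAdd I.n j) *
      Z⁻¹ (Fin.castAdd I.n j) (Fin.natAdd I.n u) = 0 := by
    refine sum_eq_zero fun j _ => ?_
    have := congrFun h2 j
    simp only [Pi.zero_apply] at this
    rw [this, mul_zero]
  have h5 : ∑ j, Z (Fin.natAdd I.n u) (Fin.natAdd I.n j) *
      Z⁻¹ (Fin.natAdd I.n j) (Fin.natAdd I.n u) = 0 := by
    refine sum_eq_zero fun j _ => ?_
    have : Z (Fin.natAdd I.n u) (Fin.natAdd I.n j) = 0 := by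
      rw [hZ]
      unfold ZZ
      rw [dif_neg (by simp), hAdef, Matrix.map_apply]
      unfold stM
      rw [mat_copies I u j hu, map_zero]
    rw [this, zero_mul]
  rw [h4, h5, neg_zero]

end Pool.Agent.Lib.MP_0c183c_P9A
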