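import Pool.Agent.Lib.MP_0c183c_P9A.Arr

/-! # The arithmetic is polynomial time -/

set_option autoImplicit false

namespace Pool.Agent.Lib.MP_0c183c_P9A

open Pool.Agent.Lib.PolyTree

variable {α : Type} [TEnc α]

@[fun_prop]
theorem PF.par {l : α → List Bool} (hl : PF l) : PF fun a => par (l a) := by
  unfold MP_0c183c_P9A.par
  fun_prop

@[fun_prop]
theorem PF.mono {D k : α → ℕ} (hD : PF D) (hk : PF k) : PF fun a => mono (D a) (k a) := by
  unfold MP_0c183c_P9A.mono
  fun_prop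

@[fun_prop]
theorem PF.addP {D : α → ℕ} {x y : α → List Bool} (hD : PF D) (hx : PF x) (hy : PF y) :
    PF fun a => addP (D a) (x a) (y a) := by
  unfold MP_0c183c_P9A.addP
  fun_prop

@[fun_prop]
theorem PF.mulP {D : α → ℕ} {x y : α → List Bool} (hD : PF D) (hx : PF x) (hy : PF y) :
    PF fun a => mulP (D a) (x a) (y a) := by
  unfold MP_0c183c_P9A.mulP
  fun_prop

@[fun_prop]
theorem PF.sumP {D : α → ℕ} {x : α → List (List Bool)} (hD : PF D) (hx : PF x) :
    PF fun a => sumP (D a) (x a) := by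
  unfold MP_0c183c_P9A.sumP
  fun_prop

@[fun_prop]
theorem PF.nzP {x : α → List Bool} (hx : PF x) : PF fun a => nzP (x a) := by
  unfold MP_0c183c_P9A.nzP
  fun_prop

@[fun_prop]
theorem PF.gp {M : α → LM} {i j : α → ℕ} (hM : PF M) (hi : PF i) (hj : PF j) :
    PF fun a => gp (M a) (i a) (j a) := by
  unfold MP_0c183c_P9A.gp
  fun_prop

@[fun_prop]
theorem PF.tab {n : α → ℕ} {f : α → ℕ → ℕ → List Bool} (hn : PF n)
    (hf : PF fun p : α × ℕ × ℕ => f p.1 p.2.1 p.2.2) : PF fun a => tab (n a) (f a) := by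
  unfold MP_0c183c_P9A.tab
  fun_prop

@[fun_prop]
theorem PF.muL {D N : α → ℕ} {X : α → LM} (hD : PF D) (hN : PF N) (hX : PF X) :
    PF fun a => muL (D a) (N a) (X a) := by
  unfold MP_0c183c_P9A.muL
  fun_prop

@[fun_prop]
theorem PF.mulM {D N : α → ℕ} {X Y : α → LM} (hD : PF D) (hN : PF N) (hX : PF X) (hY : PF Y) :
    PF fun a => mulM (D a) (N a) (X a) (Y a) := by
  unfold MP_0c183c_P9A.mulM
  fun_prop

theorem tsz_sumP (D : ℕ) (l : List (List Bool)) : tsz (sumP D l) ≤ D * 4 + 1 := by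
  refine tsz_list_le (by simp [sumP]) fun b _ => tsz_bool_le b

theorem tsz_tab (n b : ℕ) (f : ℕ → ℕ → List Bool) (h : ∀ i j, tsz (f i j) ≤ b) :
    tsz (tab n f) ≤ n * (n * (b + 1) + 1 + 1) + 1 := by
  unfold tab
  refine tsz_list_le (by simp) fun r hr => ?_
  obtain ⟨i, -, rfl⟩ := List.mem_map.1 hr
  refine tsz_list_le (by simp) fun r hr => ?_
  obtain ⟨j, -, rfl⟩ := List.mem_map.1 hr
  exact h i j

@[fun_prop]
theorem PF.detL {D N : α → ℕ} {X : α → LM} (hD : PF D) (hN : PF N) (hX : PF X) :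
    PF fun a => detL (D a) (N a) (X a) := by
  unfold MP_0c183c_P9A.detL
  refine PF.gp ?_ (by fun_prop) (by fun_prop)
  refine PF.iterate' (f := fun (a : α) (Y : LM) => MP_0c183c_P9A.mulM (D a) (N a)
    (MP_0c183c_P9A.muL (D a) (N a) Y) (X a))
    (n := fun a => N a - 1) (s := X)
    (B := fun a => tsz (X a) + (N a * (N a * (D a * 4 + 1 + 1) + 1 + 1) + 1))
    (by fun_prop) (by fun_prop) (by fun_prop) (by fun_prop) ?_
  intro a t _
  cases t with
  | zero => simp
  | succ t =>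
    rw [Function.iterate_succ_apply']
    refine (tsz_tab _ (D a * 4 + 1) _ fun i j => tsz_sumP _ _).trans ?_
    omega

end Pool.Agent.Lib.MP_0c183c_P9A
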