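import Pool.Agent.Lib.MP_0c183c_P9A.Search

/-! # The determinant stays nonzero, the final point is stuck -/

set_option autoImplicit false

namespace Pool.Agent.Lib.MP_0c183c_P9A

open Pool.Agent.Lib.PolyTree Pool.Agent.Lib.FOLFP Matrix Finset Polynomial
open Pool.Agent.Lib.MP_0c183c_h75B (IsAltOn Stuck)

section
variable {V : Type*} [Fintype V] [DecidableEq V]

/-- Matching `a` with `b` outside the rest keeps the matrix nonsingular if the entry of the inverse
is nonzero. -/
theorem pair_det {K : Type*} [Field K] [CharP K 2] {A A' P : Matrix V V K} {a b : V}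
    (hab : a ≠ b) (hAP : A * P = 1) (hs : ∀ u v, A u v = A v u) (h0 : ∀ v, A v v = 0) {W : K}
    (hW : W ≠ 0) (hP : P a b ≠ 0) (ha : ∀ j, A' a j = if j = b then W else 0)
    (hb : ∀ j, A' b j = if j = a then W else 0)
    (hA : ∀ i j, i ≠ a → i ≠ b → j ≠ a → j ≠ b → A' i j = A i j) : A'.det ≠ 0 := by
  classical
  have hPA : P * A = 1 := mul_eq_one_comm.1 hAP
  have hinj : Function.Injective ![a, b] := by
    intro i j hij
    fin_cases i <;> fin_cases j
    · rfl
    · exact absurd hij hab
    · exact absurd hij hab.symm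
    · rfl
  have h1 := det_repF hAP ![b, a] hinj
  have h2 : (P.submatrix ![b, a] ![a, b]).det = P a b * P a b := by
    rw [Matrix.det_fin_two]
    simp only [Matrix.submatrix_apply, Matrix.cons_val_zero, Matrix.cons_val_one]
    rw [inv_diag hs h0 hPA b, inv_diag hs h0 hPA a, inv_symm hs hPA b a]
    ring
  have hA0 : A.det ≠ 0 := by
    intro h
    have := congrArg Matrix.det hAP
    rw [Matrix.det_mul, h, zero_mul, Matrix.det_one] at this
    exact zero_ne_one this
  have h3 : (repF ![b, a] ![a, b] A).det ≠ 0 := by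
    rw [h1, h2]
    exact mul_ne_zero hA0 (mul_ne_zero hP hP)
  have hRa : ∀ j, repF ![b, a] ![a, b] A a j = if j = b then 1 else 0 :=
    fun j => repF_row ![b, a] hinj A 0 j
  have hRb : ∀ j, repF ![b, a] ![a, b] A b j = if j = a then 1 else 0 :=
    fun j => repF_row ![b, a] hinj A 1 j
  have hR : ∀ i j, i ≠ a → i ≠ b → repF ![b, a] ![a, b] A i j = A i j := by
    intro i j hia hib
    apply repF_row'
    rintro ⟨l, hl⟩
    fin_cases l
    · exact hia hl.symm
    · exact hib hl.symm
  rw [Matrix.twoBlockTriangular_det _ (fun i => ¬ (i = a ∨ i = b))] at h3 ⊢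
  · have e1 : (A'.toSquareBlockProp fun i => ¬ (i = a ∨ i = b)) =
        (repF ![b, a] ![a, b] A).toSquareBlockProp fun i => ¬ (i = a ∨ i = b) := by
      ext ⟨i, hi⟩ ⟨j, hj⟩
      rw [Matrix.toSquareBlockProp_def, Matrix.toSquareBlockProp_def, Matrix.of_apply,
        Matrix.of_apply]
      push Not at hi hj
      rw [hA i j hi.1 hi.2 hj.1 hj.2, hR i j hi.1 hi.2]
    have e2 : (A'.toSquareBlockProp fun i => ¬ ¬ (i = a ∨ i = b)) =
        W • (repF ![b, a] ![a, b] A).toSquareBlockProp fun i => ¬ ¬ (i = a ∨ i = b) := by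
      ext ⟨i, hi⟩ ⟨j, hj⟩
      rw [Matrix.smul_apply, Matrix.toSquareBlockProp_def, Matrix.toSquareBlockProp_def,
        Matrix.of_apply, Matrix.of_apply, smul_eq_mul]
      rw [not_not] at hi
      rcases hi with rfl | rfl
      · rw [ha, hRa]; split_ifs <;> simp
      · rw [hb, hRb]; split_ifs <;> simp
    rw [e1, e2, Matrix.det_smul]
    exact mul_ne_zero (left_ne_zero_of_mul h3)
      (mul_ne_zero (pow_ne_zero _ hW) (right_ne_zero_of_mul h3))
  · intro i hi j hj
    rw [not_not] at hi
    push Not at hj
    rcases hi with rfl | rfl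
    · rw [ha, if_neg hj.2]
    · rw [hb, if_neg hj.1]
  · intro i hi j hj
    rw [not_not] at hi
    push Not at hj
    rcases hi with rfl | rfl
    · rw [hRa, if_neg hj.2]
    · rw [hRb, if_neg hj.1]

end

/-! ### Lists of pairs -/

theorem inP_false {σ : List (ℕ × ℕ)} {u v : ℕ} (h : unp σ u = true) :
    inP σ u v = false ∧ inP σ v u = false := by
  have h1 : inP σ u v = false := by
    unfold inP
    rw [List.any_eq_false]
    intro p hp
    unfold unp at h
    rw [List.all_eq_true] at h
    have := h p hp
    simp only [Bool.not_eq_true', Bool.or_eq_false_iff, decide_eq_false_iff_not] at this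
    simp [this.1, this.2]
  exact ⟨h1, by rw [inP_symm]; exact h1⟩

theorem find_eq {β : Type} {l : List β} {p : β → Bool} {a : β} (ha : a ∈ l) (hp : p a = true)
    (hu : ∀ b ∈ l, p b = true → b = a) : l.find? p = some a := by
  cases h : l.find? p with
  | none =>
    have := List.find?_eq_none.1 h a ha
    exact absurd hp this
  | some b => rw [hu b (List.mem_of_find?_eq_some h) (List.find?_some h)]

/-- The test of a minor as a list. -/
theorem repF_eq {m : ℕ} {R : Type} [Zero R] [One R] {k : ℕ} (x : Fin k → Fin m)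
    {x' : Fin k → Fin m} (hx' : Function.Injective x') (A : Matrix (Fin m) (Fin m) R) :
    repF x x' A = repS (List.ofFn fun i => ((x i : ℕ), (x' i : ℕ))) A := by
  ext1 a b
  unfold repS
  by_cases h : ∃ i, x' i = a
  · obtain ⟨i, rfl⟩ := h
    rw [find_eq (a := ((x i : ℕ), (x' i : ℕ)))]
    · rw [repF_row x hx', Option.elim_some]
      by_cases hb : b = x i
      · rw [if_pos hb, if_pos (congrArg Fin.val hb)]
      · rw [if_neg hb, if_neg (fun h => hb (Fin.ext h))]
    · exact (List.mem_ofFn).2 ⟨i, rfl⟩
    · simp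
    · intro q hq hq2
      obtain ⟨j, rfl⟩ := (List.mem_ofFn).1 hq
      simp only [decide_eq_true_eq] at hq2
      have := hx' (Fin.ext hq2)
      rw [this]
  · rw [repF_row' x x' A h]
    have : (List.ofFn fun i => ((x i : ℕ), (x' i : ℕ))).find? (fun p => decide (p.2 = (a : ℕ))) =
        none := by
      rw [List.find?_eq_none]
      intro q hq
      obtain ⟨j, rfl⟩ := (List.mem_ofFn).1 hq
      simp only [decide_eq_true_eq]
      exact fun h' => h ⟨j, Fin.ext h'⟩
    rw [this]
    rfl

theorem mem_tests {c n k : ℕ} (hk : k ≤ c) (x x' : Fin k → Fin (n + n)) :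
    (List.ofFn fun i => ((x i : ℕ), (x' i : ℕ))) ∈ tests c n := by
  unfold tests
  rw [mem_tup]
  refine ⟨by simpa using hk, ?_⟩
  intro p hp
  obtain ⟨i, rfl⟩ := (List.mem_ofFn).1 hp
  exact mem_posL.2 ⟨(x i).2, (x' i).2⟩

/-! ### The search -/

variable (c : ℕ) (I : Graph)

/-- The weight matrix of a state. -/
noncomputable abbrev stM (st : List (ℕ × ℕ × ℕ) × List (ℕ × ℕ)) :
    Matrix (Fin (I.n + I.n)) (Fin (I.n + I.n)) (ZMod 2)[X] := matS I.encode I.n st.1 st.2

/-- Good states. -/
def Inv (st : List (ℕ × ℕ × ℕ) × List (ℕ × ℕ)) : Prop :=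
  Small (MM (I.n + I.n) (tests c I.n).length) st.1 ∧ (stM I st).det ≠ 0

/-- Tests decide determinants. -/
theorem nz_iff (hn : 1 < I.n) {y : List (ℕ × ℕ × ℕ)} {σ : List (ℕ × ℕ)}
    (h : Small (MM (I.n + I.n) (tests c I.n).length) y) (l : List (ℕ × ℕ)) :
    nzT (DD (I.n + I.n) (tests c I.n).length) (I.n + I.n)
      (matL (DD (I.n + I.n) (tests c I.n).length) I.encode I.n y σ) l = true ↔
      (repS l (matS I.encode I.n y σ)).det ≠ 0 :=
  nzT_iff (by omega) (repM_mat _ _ _ _ _) (fun a b => natDegree_entS h _ _ _ _ _) l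

/-- Exchange of the two halves. -/
def swp (n : ℕ) (a : Fin (n + n)) : Fin (n + n) :=
  if h : (a : ℕ) < n then ⟨n + a, by omega⟩ else ⟨a - n, by omega⟩

theorem swp_swp (n : ℕ) (a : Fin (n + n)) : swp n (swp n a) = a := by
  apply Fin.ext
  unfold swp
  by_cases h : (a : ℕ) < n
  · rw [dif_pos h]
    simp
  · rw [dif_neg h]
    have : (a : ℕ) - n < n := by omega
    rw [dif_pos (by simpa using this)]
    simp only
    omega

theorem mat_init (w : List Sym) (n : ℕ) (a b : Fin (n + n)) :
    ((a : ℕ) < n → (b : ℕ) < n → matS w n [] [] a b = 0) ∧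
    (¬ ((a : ℕ) < n ∧ (b : ℕ) < n) → matS w n [] [] a b = if b = swp n a then 1 else 0) := by
  constructor
  · intro ha hb
    unfold matS entS lk
    simp [ha, hb]
  · intro hab
    unfold matS entS lk gadj unp inP swp
    simp only [List.find?_nil, Option.map_none, Option.elim_none, if_neg hab, List.all_nil,
      List.any_nil, Bool.and_true, Bool.and_false]
    by_cases ha : (a : ℕ) < n
    · have hb : ¬ (b : ℕ) < n := fun hb => hab ⟨ha, hb⟩
      simp only [if_pos ha, if_neg hb, dif_pos ha, decide_eq_true_eq, Fin.ext_iff]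
    · by_cases hb : (b : ℕ) < n
      · simp only [if_neg ha, if_pos hb, dif_neg ha, decide_eq_true_eq, Fin.ext_iff]
        congr 1
        rw [eq_iff_iff]
        omega
      · simp only [if_neg ha, if_neg hb, dif_neg ha, Fin.ext_iff, Bool.false_eq_true, if_false]
        rw [if_neg]
        omega

theorem inv_init : Inv c I ([], []) := by
  refine ⟨fun t ht => absurd ht (by simp), ?_⟩
  have key : ∀ a b : Fin (I.n + I.n), stM I ([], []) a b =
      if b = swp I.n a then 1 else 0 := by
    intro a b
    obtain ⟨h1, h2⟩ := mat_init I.encode I.n a b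
    by_cases h : (a : ℕ) < I.n ∧ (b : ℕ) < I.n
    · rw [if_neg]
      · exact h1 h.1 h.2
      · intro h3
        have h4 := congrArg Fin.val h3
        unfold swp at h4
        rw [dif_pos h.1] at h4
        simp only at h4
        omega
    · exact h2 h
  have h1 : stM I ([], []) * stM I ([], []) = 1 := by
    ext1 a b
    rw [Matrix.mul_apply, Matrix.one_apply]
    simp only [key]
    rw [sum_eq_single (swp I.n a)]
    · rw [if_pos rfl, one_mul, swp_swp]
      simp only [eq_comm]
    · intro j _ hj
      rw [if_neg hj, zero_mul]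
    · intro h
      exact absurd (mem_univ _) h
  intro h
  have h2 := congrArg Matrix.det h1
  rw [Matrix.det_mul, h, zero_mul, Matrix.det_one] at h2
  exact zero_ne_one h2

theorem nil_mem_tests (c n : ℕ) : [] ∈ tests c n := by
  unfold tests
  rw [mem_tup]
  simp

theorem repS_nil {m : ℕ} {R : Type} [Zero R] [One R] (A : Matrix (Fin m) (Fin m) R) :
    repS [] A = A := rfl

/-- Membership in the list of candidates. -/
theorem mem_cnd {st : List (ℕ × ℕ × ℕ) × List (ℕ × ℕ)} {t : ℕ × ℕ × ℕ} :
    t ∈ cnd c I.encode st ↔ t.1 < t.2.1 ∧ t.2.1 < I.n + I.n ∧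
      gadj I.encode I.n st.2 t.1 t.2.1 = true ∧
      t.2.2 < MM (I.n + I.n) (tests c I.n).length := by
  unfold cnd cands
  simp only [nOf_encode, List.mem_flatMap, List.mem_filter, mem_posL, List.mem_map,
    List.mem_range, Bool.and_eq_true, decide_eq_true_eq]
  constructor
  · rintro ⟨p, ⟨⟨h1, h2⟩, h3, h4⟩, k, hk, rfl⟩
    exact ⟨h3, h2, h4, hk⟩
  · rintro ⟨h1, h2, h3, h4⟩
    exact ⟨(t.1, t.2.1), ⟨⟨by simp only; omega, h2⟩, h1, h3⟩, t.2.2, h4, rfl⟩

/-- Values of the weight of a pair edge. -/
theorem ent_pair_ne (w : List Sym) (n : ℕ) (y : List (ℕ × ℕ × ℕ)) (σ : List (ℕ × ℕ)) {a b : ℕ}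
    (h : gadj w n σ a b = true) (hab : ¬ (a < n ∧ b < n)) : entS w n y σ a b ≠ 0 := by
  unfold entS
  rw [if_pos h, if_neg hab]
  cases lk y a b with
  | none => simp
  | some k => simp

theorem inP_cons (p : ℕ × ℕ) (σ : List (ℕ × ℕ)) (a b : ℕ) :
    inP (p :: σ) a b = (((decide (p.1 = a) && decide (p.2 = b)) ||
      (decide (p.1 = b) && decide (p.2 = a))) || inP σ a b) := by
  unfold inP
  rw [List.any_cons]

theorem unp_cons (p : ℕ × ℕ) (σ : List (ℕ × ℕ)) (a : ℕ) :
    unp (p :: σ) a = (!(decide (p.1 = a) || decide (p.2 = a)) && unp σ a) := by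
  unfold unp
  rw [List.all_cons]

theorem inv_step (hn : 1 < I.n) {st : List (ℕ × ℕ × ℕ) × List (ℕ × ℕ)} (h : Inv c I st) :
    Inv c I (step c I.encode st) := by
  have hN := nOf_encode I
  rcases step_cases c I.encode st with ⟨t, ht, h1, h2⟩ | ⟨p, hp, h1, h2⟩ | ⟨-, -, h2⟩
  · rw [h2]
    have ht' := (mem_cnd c I).1 ht
    have hs : Small (MM (I.n + I.n) (tests c I.n).length) (t :: st.1) := by
      intro q hq
      rcases List.mem_cons.1 hq with rfl | hq
      · exact ht'.2.2.2
      · exact h.1 q hq
    refine ⟨hs, ?_⟩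
    unfold better impr at h1
    rw [hN, Bool.and_eq_true, List.all_eq_true] at h1
    have h3 := h1.1 [] (nil_mem_tests c I.n)
    have h4 := (nz_iff c I hn h.1 (σ := st.2) []).2 h.2
    have h5 : nzT (DD (I.n + I.n) (tests c I.n).length) (I.n + I.n)
      (matL (DD (I.n + I.n) (tests c I.n).length) I.encode I.n (t :: st.1) st.2) [] = true := by
      rw [h4] at h3
      simpa using h3
    exact (nz_iff c I hn hs []).1 h5
  · rw [h2]
    refine ⟨h.1, ?_⟩
    rw [hN] at hp
    have hp' := mem_posL.1 hp
    unfold addable at h1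
    simp only [Bool.and_eq_true, decide_eq_true_eq] at h1
    obtain ⟨⟨⟨h3, h4⟩, h5⟩, h6⟩ := h1
    rw [hN] at h6
    have h7 := (nz_iff c I hn h.1 _).1 h6
    obtain ⟨u, v⟩ := p
    simp only at hp' h3 h4 h5 h6 h7
    set a : Fin (I.n + I.n) := ⟨I.n + u, by omega⟩ with ha
    set b : Fin (I.n + I.n) := ⟨I.n + v, by omega⟩ with hb
    have hab : a ≠ b := by
      intro h
      have := congrArg Fin.val h
      simp only [ha, hb] at this
      omega
    have hdet : ((stM I st).map φK).det ≠ 0 := det_map_ne_zero.2 h.2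
    have hAP : (stM I st).map φK * ((stM I st).map φK)⁻¹ = 1 :=
      Matrix.mul_nonsing_inv _ (isUnit_iff_ne_zero.2 hdet)
    have hon := altOn_mat I st.1 st.2
    have hP : ((stM I st).map φK)⁻¹ a b ≠ 0 := by
      intro h0
      apply h7
      have e1 : repS [(I.n + u, I.n + v)] (stM I st) = repF ![a] ![b] (stM I st) := by
        have := repF_eq (m := I.n + I.n) (k := 1) ![a] (x' := ![b])
          (fun i j _ => Subsingleton.elim i j) (stM I st)
        rw [this]
        rfl
      change (repS [(I.n + u, I.n + v)] (stM I st)).det = 0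
      rw [e1]
      have e2 : (repF ![a] ![b] ((stM I st).map φK)).det = 0 := by
        rw [det_repF hAP ![a] (fun i j _ => Subsingleton.elim i j)]
        have : (((stM I st).map φK)⁻¹.submatrix ![a] ![b]).det = 0 := by
          rw [Matrix.det_fin_one]
          exact h0
        rw [this, mul_zero]
      by_contra hne
      rw [← ne_eq, ← det_map_ne_zero] at hne
      apply hne
      rw [← e2]
      congr 1
      rw [repF_eq (m := I.n + I.n) (k := 1) ![a] (x' := ![b])
          (fun i j _ => Subsingleton.elim i j), repF_eq (m := I.n + I.n) (k := 1) ![a] (x' := ![b])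
          (fun i j _ => Subsingleton.elim i j), repS_map]
    have hWp : gadj I.encode I.n ((u, v) :: st.2) a b = true := by
      unfold gadj
      simp only [ha, hb]
      rw [if_neg (by omega), if_neg (by omega), inP_cons]
      have : ¬ (u = v) := by omega
      simp [this]
    rw [← det_map_ne_zero]
    have hWne : ¬ ((a : ℕ) < I.n ∧ (b : ℕ) < I.n) := by
      simp only [ha, hb]
      omega
    have hunp : ∀ j : ℕ, j ≠ u → j ≠ v → unp ((u, v) :: st.2) j = unp st.2 j := by
      intro j h1 h2
      rw [unp_cons]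
      simp [Ne.symm h1, Ne.symm h2]
    have hrow : ∀ (u v : ℕ), u < I.n → v < I.n → u ≠ v → unp st.2 u = true →
        ∀ τ : List (ℕ × ℕ), (τ = (u, v) :: st.2 ∨ τ = (v, u) :: st.2) →
        ∀ j : Fin (I.n + I.n), (j : ℕ) ≠ I.n + v → gadj I.encode I.n τ (I.n + u) j = false := by
      intro u v hu hv huv hup τ hτ j hj
      unfold gadj
      rw [if_neg (by omega)]
      by_cases hj2 : (j : ℕ) < I.n
      · rw [if_pos hj2]
        by_cases hju : I.n + u = I.n + j
        · have hju' : (j : ℕ) = u := by omega
          have : unp τ j = false := by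
            rcases hτ with rfl | rfl
            · rw [unp_cons, hju']; simp
            · rw [unp_cons, hju']; simp
          rw [this]
          simp
        · have hju' : ¬ (u = (j : ℕ)) := by omega
          simp [hju']
      · rw [if_neg hj2]
        have h1 := (inP_false (v := j - I.n) hup).1
        have : inP τ (I.n + u - I.n) (j - I.n) = false := by
          rw [Nat.add_sub_cancel_left]
          have h2 : ¬ (v = j - I.n) := by omega
          rcases hτ with rfl | rfl
          · rw [inP_cons, h1]
            simp [h2, Ne.symm huv]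
          · rw [inP_cons, h1]
            simp [h2, Ne.symm huv]
        rw [this]
        simp
    have hone : ∀ (y : List (ℕ × ℕ × ℕ)) (τ : List (ℕ × ℕ)) (i j : Fin (I.n + I.n)),
        gadj I.encode I.n τ i j = false → matS I.encode I.n y τ i j = 0 := by
      intro y τ i j h
      unfold matS entS
      rw [h]
      simp
    refine pair_det (W := φK (entS I.encode I.n st.1 ((u, v) :: st.2) a b)) hab hAP hon.symm
      hon.diag ?_ hP ?_ ?_ ?_
    · rw [ne_eq, map_eq_zero_iff _ φK_inj]
      exact ent_pair_ne _ _ _ _ hWp hWne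
    · intro j
      rw [Matrix.map_apply]
      split_ifs with hj
      · rw [hj]
        rfl
      · change φK (matS I.encode I.n st.1 ((u, v) :: st.2) a j) = 0
        rw [hone, map_zero]
        refine hrow u v (by omega) (by omega) (by omega) h4 _ (Or.inl rfl) j ?_
        intro h'
        exact hj (Fin.ext h')
    · intro j
      rw [Matrix.map_apply]
      split_ifs with hj
      · rw [hj]
        unfold stM matS
        simp only
        rw [entS_symm]
      · change φK (matS I.encode I.n st.1 ((u, v) :: st.2) b j) = 0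
        rw [hone, map_zero]
        refine hrow v u (by omega) (by omega) (by omega) h5 _ (Or.inr rfl) j ?_
        intro h'
        exact hj (Fin.ext h')
    · intro i j hia hib hja hjb
      rw [Matrix.map_apply, Matrix.map_apply]
      congr 1
      unfold stM matS entS
      have hgo : gadj I.encode I.n ((u, v) :: st.2) i j = gadj I.encode I.n st.2 i j := by
        have hia' : (i : ℕ) ≠ I.n + u := fun h => hia (Fin.ext h)
        have hib' : (i : ℕ) ≠ I.n + v := fun h => hib (Fin.ext h)
        have hja' : (j : ℕ) ≠ I.n + u := fun h => hja (Fin.ext h)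
        have hjb' : (j : ℕ) ≠ I.n + v := fun h => hjb (Fin.ext h)
        unfold gadj
        by_cases hi : (i : ℕ) < I.n
        · by_cases hj : (j : ℕ) < I.n
          · rw [if_pos hi, if_pos hj, if_pos hi, if_pos hj]
          · rw [if_pos hi, if_neg hj, if_pos hi, if_neg hj]
            by_cases hji : (j : ℕ) = I.n + i
            · rw [hunp i (by omega) (by omega)]
            · simp [hji]
        · by_cases hj : (j : ℕ) < I.n
          · rw [if_neg hi, if_pos hj, if_neg hi, if_pos hj]
            by_cases hji : (i : ℕ) = I.n + j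
            · rw [hunp j (by omega) (by omega)]
            · simp [hji]
          · rw [if_neg hi, if_neg hj, if_neg hi, if_neg hj, inP_cons]
            have h1 : ¬ (u = (i : ℕ) - I.n) := by omega
            have h2 : ¬ (v = (i : ℕ) - I.n) := by omega
            simp [h1, h2]
      rw [hgo]
  · rw [h2]
    exact h

theorem inv_run (hn : 1 < I.n) : Inv c I (run c I.encode) := by
  rw [run_eq]
  generalize (nOf I.encode + 1) * ((tests c (nOf I.encode)).length + 1) = R
  induction R with
  | zero => exact inv_init c I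
  | succ R ih =>
    rw [Function.iterate_succ_apply']
    exact inv_step c I hn ih

end Pool.Agent.Lib.MP_0c183c_P9A
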