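import Pool.Agent.Lib.MP_0c183c_P9A.NoPM

/-! # All vertices paired: the point is generic for the graph itself -/

set_option autoImplicit false

namespace Pool.Agent.Lib.MP_0c183c_P9A

open Pool.Agent.Lib.PolyTree Pool.Agent.Lib.FOLFP Matrix Finset Polynomial
open Pool.Agent.Lib.MP_0c183c_h75B (IsAltOn Stuck generic_of_stuck)

theorem blk_inv {n : ℕ} {K : Type} [Field K] {A P : Matrix (Fin (n + n)) (Fin (n + n)) K}
    (h : A * P = 1) (hc : ∀ v j, A (Fin.castAdd n v) (Fin.natAdd n j) = 0) :
    blk A * blk P = 1 := by
  ext a b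
  have h1 := congrFun (congrFun h (Fin.castAdd n a)) (Fin.castAdd n b)
  rw [Matrix.mul_apply, Matrix.one_apply, Fin.sum_univ_add] at h1
  simp only [hc, zero_mul, sum_const_zero, add_zero] at h1
  rw [Matrix.mul_apply, Matrix.one_apply]
  have h2 : (Fin.castAdd n a = Fin.castAdd n b) ↔ a = b := by
    constructor
    · intro h
      exact Fin.ext (by simpa using congrArg Fin.val h)
    · rintro rfl
      rfl
  simp only [h2] at h1
  exact h1

section
variable {n : ℕ} {L : Type} [Field L] [CharP L 2]

/-- A field containing `L` and the polynomials over the prime field. -/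
abbrev LL (L : Type) [Field L] : Type := FractionRing L[X]

/-- Embedding of `L`. -/
noncomputable def ιL (L : Type) [Field L] : L →+* LL L := (algebraMap L[X] (LL L)).comp C

/-- Embedding of the polynomials. -/
noncomputable def ψL (L : Type) [Field L] [CharP L 2] : (ZMod 2)[X] →+* LL L :=
  (algebraMap L[X] (LL L)).comp (mapRingHom (ZMod.castHom (dvd_refl 2) L))

omit [CharP L 2] in
theorem ιL_inj : Function.Injective (ιL L) :=
  (IsFractionRing.injective L[X] (LL L)).comp C_injective

theorem ψL_inj : Function.Injective (ψL L) :=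
  (IsFractionRing.injective L[X] (LL L)).comp
    (Polynomial.map_injective _ (RingHom.injective (ZMod.castHom (dvd_refl 2) L)))

instance : CharP (LL L) 2 := by
  have : CharP L[X] 2 := Polynomial.charP
  exact charP_of_injective_algebraMap (IsFractionRing.injective L[X] (LL L)) 2

end

variable (c : ℕ) (I : Graph)

theorem paired (hn : 1 < I.n) (hall : ∀ u : Fin I.n, unp (run c I.encode).2 u = false) :
    IsAltOn I.G (blk ((stM I (run c I.encode)).map φK)) ∧
    (blk ((stM I (run c I.encode)).map φK)).det ≠ 0 ∧
    CGen c I.G (blk ((stM I (run c I.encode)).map φK)) := by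
  have hinv := inv_run c I hn
  have hstuck := stuck_run c I hn
  set st := run c I.encode with hst
  set S := stM I st with hS
  set A := S.map φK with hAdef
  have hdet : A.det ≠ 0 := det_map_ne_zero.2 hinv.2
  have hAP : A * A⁻¹ = 1 := Matrix.mul_nonsing_inv _ (isUnit_iff_ne_zero.2 hdet)
  have hon : IsAltOn (GG I st.2) A := altOn_mat I st.1 st.2
  have hScross : ∀ v j : Fin I.n, S (Fin.castAdd I.n v) (Fin.natAdd I.n j) = 0 := by
    intro v j
    refine mat_cross I v j ?_
    rintro ⟨-, h⟩
    rw [hall v] at h
    exact Bool.noConfusion h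
  have hScross' : ∀ v j : Fin I.n, S (Fin.natAdd I.n j) (Fin.castAdd I.n v) = 0 := by
    intro v j
    have : S (Fin.natAdd I.n j) (Fin.castAdd I.n v) = S (Fin.castAdd I.n v) (Fin.natAdd I.n j) := by
      rw [hS]
      unfold stM matS
      exact entS_symm I _ _ _ _
    rw [this, hScross]
  have hcross : ∀ v j : Fin I.n, A (Fin.castAdd I.n v) (Fin.natAdd I.n j) = 0 := by
    intro v j
    rw [hAdef, Matrix.map_apply, hScross, map_zero]
  have hblk := blk_inv hAP hcross
  have hadjc : ∀ a b : Fin I.n, (GG I st.2).Adj (Fin.castAdd I.n a) (Fin.castAdd I.n b) ↔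
      I.G.Adj a b := by
    intro a b
    change gadj I.encode I.n st.2 a b = true ↔ _
    unfold gadj
    rw [if_pos a.2, if_pos b.2]
    exact adjOf_encode I a b
  refine ⟨⟨fun a b => hon.symm _ _, fun a => hon.diag _, fun a b h => ?_⟩, ?_, ?_⟩
  · exact (hadjc a b).1 (hon.supp _ _ h)
  · intro h
    have := congrArg Matrix.det hblk
    rw [Matrix.det_mul, h, zero_mul, Matrix.det_one] at this
    exact zero_ne_one this
  · intro k hk x x' h0 L _ _ B hB hBdet
    rw [Matrix.inv_eq_right_inv hblk] at h0
    -- the block of the copies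
    set J := S.submatrix (Fin.natAdd I.n) (Fin.natAdd I.n) with hJ
    have hJdet : J.det ≠ 0 := by
      have h1 : S.submatrix finSumFinEquiv finSumFinEquiv = Matrix.fromBlocks (blk S) 0 0 J := by
        apply Matrix.ext
        intro a b
        rcases a with a | a <;> rcases b with b | b
        · simp
        · simp only [Matrix.submatrix_apply, finSumFinEquiv_apply_left,
            finSumFinEquiv_apply_right, Matrix.fromBlocks_apply₁₂, Matrix.zero_apply]
          exact hScross _ _
        · simp only [Matrix.submatrix_apply, finSumFinEquiv_apply_left,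
            finSumFinEquiv_apply_right, Matrix.fromBlocks_apply₂₁, Matrix.zero_apply]
          exact hScross' _ _
        · simp [hJ]
      have h2 := Matrix.det_submatrix_equiv_self finSumFinEquiv S
      rw [h1, Matrix.det_fromBlocks_zero₂₁] at h2
      intro h3
      rw [h3, mul_zero] at h2
      exact hinv.2 h2.symm
    set Z : Matrix (Fin (I.n + I.n)) (Fin (I.n + I.n)) (LL L) :=
      (Matrix.fromBlocks (B.map (ιL L)) 0 0 (J.map (ψL L))).submatrix finSumFinEquiv.symm
        finSumFinEquiv.symm with hZ
    have hZ11 : ∀ a b, Z (Fin.castAdd I.n a) (Fin.castAdd I.n b) = ιL L (B a b) := by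
      intro a b
      simp [hZ]
    have hZ12 : ∀ a b, Z (Fin.castAdd I.n a) (Fin.natAdd I.n b) = 0 := by
      intro a b
      rw [hZ, Matrix.submatrix_apply, finSumFinEquiv_symm_apply_castAdd,
        finSumFinEquiv_symm_apply_natAdd]
      rfl
    have hZ21 : ∀ a b, Z (Fin.natAdd I.n a) (Fin.castAdd I.n b) = 0 := by
      intro a b
      rw [hZ, Matrix.submatrix_apply, finSumFinEquiv_symm_apply_castAdd,
        finSumFinEquiv_symm_apply_natAdd]
      rfl
    have hZ22 : ∀ a b, Z (Fin.natAdd I.n a) (Fin.natAdd I.n b) =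
        ψL L (S (Fin.natAdd I.n a) (Fin.natAdd I.n b)) := by
      intro a b
      rw [hZ, Matrix.submatrix_apply, finSumFinEquiv_symm_apply_natAdd,
        finSumFinEquiv_symm_apply_natAdd]
      rfl
    have hSsymm : ∀ a b, S a b = S b a := fun a b => entS_symm I _ _ _ _
    have hZon : IsAltOn (GG I st.2) Z := by
      refine ⟨?_, ?_, ?_⟩
      · intro a b
        refine Fin.addCases (fun a => ?_) (fun a => ?_) a <;>
          refine Fin.addCases (fun b => ?_) (fun b => ?_) b
        · rw [hZ11, hZ11, hB.symm]
        · rw [hZ12, hZ21]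
        · rw [hZ12, hZ21]
        · rw [hZ22, hZ22, hSsymm]
      · intro a
        refine Fin.addCases (fun a => ?_) (fun a => ?_) a
        · rw [hZ11, hB.diag, map_zero]
        · rw [hZ22]
          have : S (Fin.natAdd I.n a) (Fin.natAdd I.n a) = 0 := by
            have h1 := hon.diag (Fin.natAdd I.n a)
            rw [hAdef, Matrix.map_apply, map_eq_zero_iff _ φK_inj] at h1
            exact h1
          rw [this, map_zero]
      · intro a b
        refine Fin.addCases (fun a => ?_) (fun a => ?_) a <;>
          refine Fin.addCases (fun b => ?_) (fun b => ?_) b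
        · intro h
          rw [hZ11] at h
          rw [hadjc]
          apply hB.supp
          intro h1
          exact h (by rw [h1, map_zero])
        · intro h
          exact absurd (hZ12 a b) h
        · intro h
          exact absurd (hZ21 a b) h
        · intro h
          rw [hZ22] at h
          apply hon.supp
          rw [hAdef, Matrix.map_apply, ne_eq, map_eq_zero_iff _ φK_inj]
          intro h1
          exact h (by rw [h1, map_zero])
    have hZdet : Z.det ≠ 0 := by
      rw [hZ, Matrix.det_submatrix_equiv_self, Matrix.det_fromBlocks_zero₂₁]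
      refine mul_ne_zero ?_ ?_
      · have : (B.map (ιL L)).det = ιL L B.det := (RingHom.map_det (ιL L) B).symm
        rw [this, ne_eq, map_eq_zero_iff _ ιL_inj]
        exact hBdet
      · have : (J.map (ψL L)).det = ψL L J.det := (RingHom.map_det (ψL L) J).symm
        rw [this, ne_eq, map_eq_zero_iff _ ψL_inj]
        exact hJdet
    have hZQ : Z * Z⁻¹ = 1 := Matrix.mul_nonsing_inv _ (isUnit_iff_ne_zero.2 hZdet)
    have hgen := generic_of_stuck (GG I st.2) A A⁻¹ Z Z⁻¹ hon hAP hZon hZQ hstuck hk
      (Fin.castAdd I.n ∘ x) (Fin.castAdd I.n ∘ x') (by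
        rw [← h0]
        rfl)
    have h1 := blk_inv hZQ hZ12
    have h2 : blk Z = B.map (ιL L) := by
      ext a b
      exact hZ11 a b
    have h3 : B.map (ιL L) * (B⁻¹).map (ιL L) = 1 := by
      have h4 : B * B⁻¹ = 1 := Matrix.mul_nonsing_inv _ (isUnit_iff_ne_zero.2 hBdet)
      rw [← Matrix.map_mul, h4]
      exact Matrix.map_one _ (map_zero _) (map_one _)
    have h5 : blk Z⁻¹ = (B⁻¹).map (ιL L) := by
      rw [h2] at h1
      rw [← Matrix.inv_eq_right_inv h1, Matrix.inv_eq_right_inv h3]
    have h6 : ((B⁻¹.submatrix x x').map (ιL L)).det = 0 := by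
      rw [← hgen]
      congr 1
      have : (Z⁻¹.submatrix (Fin.castAdd I.n ∘ x) (Fin.castAdd I.n ∘ x')) =
          (blk Z⁻¹).submatrix x x' := rfl
      rw [this, h5]
      rfl
    have h7 : ((B⁻¹.submatrix x x').map (ιL L)).det = ιL L (B⁻¹.submatrix x x').det :=
      (RingHom.map_det (ιL L) _).symm
    rw [h7, map_eq_zero_iff _ ιL_inj] at h6
    exact h6

end Pool.Agent.Lib.MP_0c183c_P9A
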