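import Pool.Agent.Lib.MP_0c183c_P9A.Sem

/-! # The search reaches a stuck point -/

set_option autoImplicit false

namespace Pool.Agent.Lib.MP_0c183c_P9A

open Pool.Agent.Lib.PolyTree Pool.Agent.Lib.FOLFP Matrix Finset Polynomial
open Pool.Agent.Lib.MP_0c183c_h75B (IsAltOn Stuck)

/-! ### Termination -/

theorem countP_lt {β : Type} {T : List β} {p q : β → Bool} (h1 : ∀ l ∈ T, p l = true → q l = true)
    (h2 : ∃ l ∈ T, p l = false ∧ q l = true) : T.countP p < T.countP q := by
  induction T with
  | nil =>
    obtain ⟨l, hl, -⟩ := h2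
    simp at hl
  | cons a T ih =>
    have hle : T.countP p ≤ T.countP q :=
      List.countP_mono_left fun x hx => h1 x (List.mem_cons_of_mem _ hx)
    obtain ⟨l, hl, hl1, hl2⟩ := h2
    rcases List.mem_cons.1 hl with rfl | hl
    · rw [List.countP_cons_of_neg (by simp [hl1]), List.countP_cons_of_pos hl2]
      omega
    · have h3 := ih (fun x hx => h1 x (List.mem_cons_of_mem _ hx)) ⟨l, hl, hl1, hl2⟩
      by_cases ha : p a = true
      · rw [List.countP_cons_of_pos ha, List.countP_cons_of_pos (h1 a (by simp) ha)]
        omega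
      · rw [List.countP_cons_of_neg ha]
        by_cases ha' : q a = true
        · rw [List.countP_cons_of_pos ha']
          omega
        · rw [List.countP_cons_of_neg ha']
          exact h3

theorem iterate_fixed {α : Type} (f : α → α) (Φ : α → ℕ) {B : ℕ} (hB : ∀ s, Φ s ≤ B)
    (h : ∀ s, f s ≠ s → Φ s < Φ (f s)) (s : α) : f (f^[B + 1] s) = f^[B + 1] s := by
  by_contra hne
  have key : ∀ j ≤ B + 1, f (f^[j] s) ≠ f^[j] s := by
    intro j hj heq
    apply hne
    have : ∀ i, f^[j + i] s = f^[j] s := by
      intro i
      induction i with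
      | zero => rfl
      | succ i ih => rw [← add_assoc, Function.iterate_succ_apply', ih, heq]
    have h1 := this (B + 1 - j)
    rw [show j + (B + 1 - j) = B + 1 by omega] at h1
    rw [h1, heq]
  have key2 : ∀ j ≤ B + 1, j ≤ Φ (f^[j] s) := by
    intro j
    induction j with
    | zero => intro _; exact Nat.zero_le _
    | succ j ih =>
      intro hj
      have h1 := ih (by omega)
      have h2 := h _ (key j (by omega))
      rw [Function.iterate_succ_apply']
      omega
  have := key2 (B + 1) le_rfl
  have := hB (f^[B + 1] s)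
  omega

section
variable (c : ℕ) (w : List Sym)

/-- The condition for the addition of a pair. -/
def addable (st : List (ℕ × ℕ × ℕ) × List (ℕ × ℕ)) (p : ℕ × ℕ) : Bool :=
  decide (p.1 < p.2) && unp st.2 p.1 && unp st.2 p.2 &&
      nzT (DD (nOf w + nOf w) (tests c (nOf w)).length) (nOf w + nOf w)
        (matL (DD (nOf w + nOf w) (tests c (nOf w)).length) w (nOf w) st.1 st.2)
        [(nOf w + p.1, nOf w + p.2)]

/-- The condition for a change of weight. -/
def better (st : List (ℕ × ℕ × ℕ) × List (ℕ × ℕ)) (t : ℕ × ℕ × ℕ) : Bool :=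
  impr (DD (nOf w + nOf w) (tests c (nOf w)).length) (nOf w + nOf w) (tests c (nOf w))
        (matL (DD (nOf w + nOf w) (tests c (nOf w)).length) w (nOf w) st.1 st.2)
        (matL (DD (nOf w + nOf w) (tests c (nOf w)).length) w (nOf w) (t :: st.1) st.2)

/-- The candidates. -/
def cnd (st : List (ℕ × ℕ × ℕ) × List (ℕ × ℕ)) : List (ℕ × ℕ × ℕ) :=
  cands w (nOf w) st.2 (MM (nOf w + nOf w) (tests c (nOf w)).length)

theorem step_cases (st : List (ℕ × ℕ × ℕ) × List (ℕ × ℕ)) :
    (∃ t ∈ cnd c w st, better c w st t = true ∧ step c w st = (t :: st.1, st.2)) ∨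
    (∃ p ∈ posL (nOf w) (nOf w), addable c w st p = true ∧ step c w st = (st.1, p :: st.2)) ∨
    ((∀ t ∈ cnd c w st, better c w st t = false) ∧
      (∀ p ∈ posL (nOf w) (nOf w), addable c w st p = false) ∧ step c w st = st) := by
  have hstep : step c w st = ((cnd c w st).find? fun t => better c w st t).elim
      (((posL (nOf w) (nOf w)).find? fun p => addable c w st p).elim st
        (fun p => (st.1, p :: st.2))) (fun t => (t :: st.1, st.2)) := rfl
  rw [hstep]
  cases h : (cnd c w st).find? fun t => better c w st t with
  | some t =>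
    left
    exact ⟨t, List.mem_of_find?_eq_some h, List.find?_some (p := fun t => better c w st t) h, rfl⟩
  | none =>
    right
    rw [Option.elim_none]
    cases h' : (posL (nOf w) (nOf w)).find? fun p => addable c w st p with
    | some p =>
      left
      exact ⟨p, List.mem_of_find?_eq_some h',
        List.find?_some (p := fun p => addable c w st p) h', rfl⟩
    | none =>
      right
      refine ⟨fun t ht => ?_, fun p hp => ?_, rfl⟩
      · have := List.find?_eq_none.1 h t ht
        simpa using this
      · have := List.find?_eq_none.1 h' p hp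
        simpa using this

/-- The potential. -/
def pot (st : List (ℕ × ℕ × ℕ) × List (ℕ × ℕ)) : ℕ :=
  ((List.range (nOf w)).countP fun u => !(unp st.2 u)) * ((tests c (nOf w)).length + 1) +
    (tests c (nOf w)).countP
      (nzT (DD (nOf w + nOf w) (tests c (nOf w)).length) (nOf w + nOf w)
        (matL (DD (nOf w + nOf w) (tests c (nOf w)).length) w (nOf w) st.1 st.2))

theorem pot_le (st : List (ℕ × ℕ × ℕ) × List (ℕ × ℕ)) :
    pot c w st ≤ (nOf w + 1) * ((tests c (nOf w)).length + 1) - 1 := by
  unfold pot
  have h1 := List.countP_le_length (l := List.range (nOf w)) (p := fun u => !(unp st.2 u))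
  rw [List.length_range] at h1
  have h2 := List.countP_le_length (l := tests c (nOf w))
    (p := nzT (DD (nOf w + nOf w) (tests c (nOf w)).length) (nOf w + nOf w)
        (matL (DD (nOf w + nOf w) (tests c (nOf w)).length) w (nOf w) st.1 st.2))
  have h3 := Nat.mul_le_mul_right ((tests c (nOf w)).length + 1) h1
  have h4 : (nOf w + 1) * ((tests c (nOf w)).length + 1) =
      nOf w * ((tests c (nOf w)).length + 1) + ((tests c (nOf w)).length + 1) := by ring
  omega

theorem pot_lt (st : List (ℕ × ℕ × ℕ) × List (ℕ × ℕ)) (h : step c w st ≠ st) :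
    pot c w st < pot c w (step c w st) := by
  rcases step_cases c w st with ⟨t, -, h1, h2⟩ | ⟨p, hp, h1, h2⟩ | ⟨-, -, h2⟩
  · rw [h2]
    unfold pot
    simp only
    unfold better impr at h1
    rw [Bool.and_eq_true, List.all_eq_true, List.any_eq_true] at h1
    obtain ⟨h3, l, hl, h4⟩ := h1
    have := countP_lt (T := tests c (nOf w))
      (p := nzT (DD (nOf w + nOf w) (tests c (nOf w)).length) (nOf w + nOf w)
        (matL (DD (nOf w + nOf w) (tests c (nOf w)).length) w (nOf w) st.1 st.2))
      (q := nzT (DD (nOf w + nOf w) (tests c (nOf w)).length) (nOf w + nOf w)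
        (matL (DD (nOf w + nOf w) (tests c (nOf w)).length) w (nOf w) (t :: st.1) st.2))
      (fun l hl h5 => by
        have := h3 l hl
        rw [h5] at this
        simpa using this)
      ⟨l, hl, by simpa using h4⟩
    omega
  · rw [h2]
    unfold pot
    simp only
    unfold addable at h1
    simp only [Bool.and_eq_true] at h1
    obtain ⟨⟨⟨-, h3⟩, -⟩, -⟩ := h1
    have h5 := countP_lt (T := List.range (nOf w)) (p := fun u => !(unp st.2 u))
      (q := fun u => !(unp (p :: st.2) u))
      (fun u _ hu => by
        simp only [unp, List.all_cons] at hu ⊢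
        rw [Bool.not_eq_true'] at hu
        rw [hu]
        simp)
      ⟨p.1, List.mem_range.2 (mem_posL.1 hp).1, by simp [h3], by simp [unp]⟩
    have h6 := List.countP_le_length (l := tests c (nOf w))
      (p := nzT (DD (nOf w + nOf w) (tests c (nOf w)).length) (nOf w + nOf w)
        (matL (DD (nOf w + nOf w) (tests c (nOf w)).length) w (nOf w) st.1 st.2))
    have h7 := Nat.mul_le_mul_right ((tests c (nOf w)).length + 1) (Nat.succ_le_of_lt h5)
    rw [Nat.succ_mul] at h7
    omega
  · exact absurd h2 h

theorem foldl_const' {α β : Type} (f : α → α) : ∀ (l : List β) (a : α),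
    l.foldl (fun b _ => f b) a = f^[l.length] a := by
  intro l
  induction l with
  | nil => intro a; rfl
  | cons b l ih => intro a; rw [List.foldl_cons, ih, List.length_cons, Function.iterate_succ_apply]

theorem run_eq : run c w = (step c w)^[(nOf w + 1) * ((tests c (nOf w)).length + 1)] ([], []) := by
  unfold run
  rw [foldl_const', List.length_range]

theorem run_fixed : (∀ t ∈ cnd c w (run c w), better c w (run c w) t = false) ∧
      (∀ p ∈ posL (nOf w) (nOf w), addable c w (run c w) p = false) := by
  have h1 := iterate_fixed (step c w) (pot c w) (pot_le c w) (pot_lt c w) ([], [])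
  have h2 : (nOf w + 1) * ((tests c (nOf w)).length + 1) - 1 + 1 =
      (nOf w + 1) * ((tests c (nOf w)).length + 1) := by
    have : 0 < (nOf w + 1) * ((tests c (nOf w)).length + 1) := by positivity
    omega
  rw [h2, ← run_eq] at h1
  rcases step_cases c w (run c w) with ⟨t, -, -, h3⟩ | ⟨p, -, -, h3⟩ | ⟨h3, h4, -⟩
  · rw [h1] at h3
    have := congrArg (fun st => st.1.length) h3
    simp at this
  · rw [h1] at h3
    have := congrArg (fun st => st.2.length) h3
    simp at this
  · exact ⟨h3, h4⟩

end

end Pool.Agent.Lib.MP_0c183c_P9A
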