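import Pool.Agent.Lib.MP_0c183c_P9A.Algo
import Pool.Agent.Lib.MP_0c183c_P9A.LinAlg

/-! # Semantics of the weight matrices and of the tests -/

set_option autoImplicit false

namespace Pool.Agent.Lib.MP_0c183c_P9A

open Pool.Agent.Lib.PolyTree Pool.Agent.Lib.FOLFP Matrix Finset Polynomial
open Pool.Agent.Lib.MP_0c183c_h75B (IsAltOn)

instance instCharPoly : CharP (ZMod 2)[X] 2 := Polynomial.charP

/-- Entry of the weight matrix. -/
noncomputable def entS (w : List Sym) (n : ℕ) (y : List (ℕ × ℕ × ℕ)) (σ : List (ℕ × ℕ))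
    (a b : ℕ) : (ZMod 2)[X] :=
  if gadj w n σ a b = true then
    (lk y a b).elim (if a < n ∧ b < n then 0 else 1) (fun k => X ^ k)
  else 0

theorem Rep.one (D : ℕ) : Rep D (MP_0c183c_P9A.mono D 0) 1 := by
  have := Rep.mono D 0
  rwa [pow_zero] at this

theorem rep_ent (D : ℕ) (w : List Sym) (n : ℕ) (y : List (ℕ × ℕ × ℕ)) (σ : List (ℕ × ℕ))
    (a b : ℕ) : Rep D (ent D w n y σ a b) (entS w n y σ a b) := by
  unfold ent entS
  split_ifs with h1 h2
  · cases lk y a b with
    | none => exact Rep.nil D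
    | some k => exact Rep.mono D k
  · cases lk y a b with
    | none => exact Rep.one D
    | some k => exact Rep.mono D k
  · exact Rep.nil D

/-- The weight matrix. -/
noncomputable def matS (w : List Sym) (n : ℕ) (y : List (ℕ × ℕ × ℕ)) (σ : List (ℕ × ℕ)) :
    Matrix (Fin (n + n)) (Fin (n + n)) (ZMod 2)[X] := fun a b => entS w n y σ a b

theorem repM_mat (D : ℕ) (w : List Sym) (n : ℕ) (y : List (ℕ × ℕ × ℕ)) (σ : List (ℕ × ℕ)) :
    RepM D (n + n) (matL D w n y σ) (matS w n y σ) := by
  intro a b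
  rw [matL, gp_tab _ _ a.2 b.2]
  exact rep_ent D w n y σ a b

/-- Replace rows by unit vectors. -/
def repS {m : ℕ} {R : Type} [Zero R] [One R] (l : List (ℕ × ℕ)) (A : Matrix (Fin m) (Fin m) R) :
    Matrix (Fin m) (Fin m) R := fun a b =>
  (l.find? fun p => decide (p.2 = (a : ℕ))).elim (A a b) (fun p => if (b : ℕ) = p.1 then 1 else 0)

theorem repM_rep {D m : ℕ} {M : LM} {P : Matrix (Fin m) (Fin m) (ZMod 2)[X]} (h : RepM D m M P)
    (l : List (ℕ × ℕ)) : RepM D m (repL D m l M) (repS l P) := by
  intro a b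
  rw [repL, gp_tab _ _ a.2 b.2, repS]
  cases l.find? fun p => decide (p.2 = (a : ℕ)) with
  | none => exact h a b
  | some p =>
    rw [Option.elim_some, Option.elim_some]
    split_ifs
    · exact Rep.one D
    · exact Rep.nil D

theorem repS_map {m : ℕ} {R R' : Type} [CommRing R] [CommRing R'] (φ : R →+* R')
    (l : List (ℕ × ℕ)) (A : Matrix (Fin m) (Fin m) R) :
    (repS l A).map φ = repS l (A.map φ) := by
  ext a b
  rw [Matrix.map_apply, repS, repS]
  cases l.find? fun p => decide (p.2 = (a : ℕ)) with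
  | none => rfl
  | some p =>
    rw [Option.elim_some, Option.elim_some]
    split_ifs <;> simp

theorem detL_length2 {D N : ℕ} (hN : 2 ≤ N) (A : LM) : (detL D N A).length ≤ D := by
  have h0 : ∀ (B C : LM) (i j : ℕ), (gp (mulM D N B C) i j).length ≤ D := by
    intro B C i j
    by_cases hi : i < N
    · by_cases hj : j < N
      · rw [mulM, gp_tab _ _ hi hj, sumP_length]
      · have : gp (mulM D N B C) i j = [] := by
          rw [gp, mulM, tab, getD_map_range _ _ _ hi, List.getD_eq_default]
          simp only [List.length_map, List.length_range]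
          omega
        rw [this]
        simp
    · have : gp (mulM D N B C) i j = [] := by
        rw [gp, mulM, tab]
        rw [List.getD_eq_default (n := i)]
        · simp
        · simp only [List.length_map, List.length_range]
          omega
      rw [this]
      simp
  unfold detL
  obtain ⟨r, hr⟩ : ∃ r, N - 1 = r + 1 := ⟨N - 1 - 1, by omega⟩
  rw [hr, Function.iterate_succ_apply']
  exact h0 _ _ 0 0

theorem degree_lt_DD {m t : ℕ} {P : Matrix (Fin m) (Fin m) (ZMod 2)[X]}
    (h : ∀ a b, (P a b).natDegree ≤ MM m t) : P.det.degree < ((DD m t : ℕ) : WithBot ℕ) := by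
  have h1 := natDegree_det_le P h
  rw [Fintype.card_fin] at h1
  refine lt_of_le_of_lt degree_le_natDegree ?_
  have : P.det.natDegree < DD m t := by unfold DD; omega
  exact_mod_cast this

theorem natDegree_repS {m d : ℕ} {P : Matrix (Fin m) (Fin m) (ZMod 2)[X]} (l : List (ℕ × ℕ))
    (h : ∀ a b, (P a b).natDegree ≤ d) : ∀ a b, (repS l P a b).natDegree ≤ d := by
  intro a b
  unfold repS
  cases l.find? fun p => decide (p.2 = (a : ℕ)) with
  | none => exact h a b
  | some p =>
    rw [Option.elim_some]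
    split_ifs <;> simp

/-- A test decides whether a determinant vanishes. -/
theorem nzT_iff {m t : ℕ} (hm : 2 ≤ m) {M : LM} {P : Matrix (Fin m) (Fin m) (ZMod 2)[X]}
    (h : RepM (DD m t) m M P) (hd : ∀ a b, (P a b).natDegree ≤ MM m t) (l : List (ℕ × ℕ)) :
    nzT (DD m t) m M l = true ↔ (repS l P).det ≠ 0 := by
  have h1 := (repM_rep h l).det (by omega)
  exact h1.nzP (detL_length2 hm _) (degree_lt_DD (natDegree_repS l hd))

/-- All exponents are small. -/
def Small (M : ℕ) (y : List (ℕ × ℕ × ℕ)) : Prop := ∀ t ∈ y, t.2.2 < M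

theorem natDegree_entS {M : ℕ} {y : List (ℕ × ℕ × ℕ)} (hy : Small M y) (w : List Sym) (n : ℕ)
    (σ : List (ℕ × ℕ)) (a b : ℕ) : (entS w n y σ a b).natDegree ≤ M := by
  unfold entS
  split_ifs
  · cases h : lk y a b with
    | none => simp
    | some k =>
      rw [Option.elim_some, natDegree_X_pow]
      unfold lk at h
      obtain ⟨t, ht, rfl⟩ := Option.map_eq_some_iff.1 h
      exact (hy t (List.mem_of_find?_eq_some ht)).le
  · cases h : lk y a b with
    | none => simp
    | some k =>
      rw [Option.elim_some, natDegree_X_pow]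
      unfold lk at h
      obtain ⟨t, ht, rfl⟩ := Option.map_eq_some_iff.1 h
      exact (hy t (List.mem_of_find?_eq_some ht)).le
  · simp

/-! ### The extended graph -/

theorem inP_symm (σ : List (ℕ × ℕ)) (a b : ℕ) : inP σ a b = inP σ b a := by
  unfold inP
  congr 1
  funext p
  rw [Bool.or_comm]

theorem gadj_symm (I : Graph) (σ : List (ℕ × ℕ)) {a b : ℕ} :
    gadj I.encode I.n σ a b = gadj I.encode I.n σ b a := by
  unfold gadj
  by_cases ha : a < I.n
  · by_cases hb : b < I.n
    · rw [if_pos ha, if_pos hb, if_pos hb, if_pos ha, Bool.eq_iff_iff]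
      have h1 := adjOf_encode I ⟨a, ha⟩ ⟨b, hb⟩
      have h2 := adjOf_encode I ⟨b, hb⟩ ⟨a, ha⟩
      simp only at h1 h2
      rw [h1, h2, I.G.adj_comm]
    · rw [if_pos ha, if_neg hb, if_neg hb, if_pos ha]
  · by_cases hb : b < I.n
    · rw [if_neg ha, if_pos hb, if_pos hb, if_neg ha]
    · rw [if_neg ha, if_neg hb, if_neg hb, if_neg ha, inP_symm]
      congr 2
      rw [decide_eq_decide]
      exact eq_comm

theorem gadj_self (I : Graph) (σ : List (ℕ × ℕ)) (a : ℕ) :
    gadj I.encode I.n σ a a = false := by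
  unfold gadj
  by_cases ha : a < I.n
  · rw [if_pos ha, if_pos ha]
    have h1 := adjOf_encode I ⟨a, ha⟩ ⟨a, ha⟩
    simp only at h1
    rw [Bool.eq_false_iff, ne_eq, h1]
    exact I.G.loopless.irrefl _
  · rw [if_neg ha, if_neg ha]
    simp

/-- The extended graph. -/
def GG (I : Graph) (σ : List (ℕ × ℕ)) : SimpleGraph (Fin (I.n + I.n)) where
  Adj a b := gadj I.encode I.n σ a b = true
  symm := ⟨fun a b h => by rw [gadj_symm]; exact h⟩
  loopless := ⟨fun a h => by rw [gadj_self] at h; exact Bool.false_ne_true h⟩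

theorem lk_symm (y : List (ℕ × ℕ × ℕ)) (a b : ℕ) : lk y a b = lk y b a := by
  unfold lk
  rw [min_comm, max_comm]

theorem entS_symm (I : Graph) (y : List (ℕ × ℕ × ℕ)) (σ : List (ℕ × ℕ)) (a b : ℕ) :
    entS I.encode I.n y σ a b = entS I.encode I.n y σ b a := by
  unfold entS
  rw [gadj_symm, lk_symm]
  simp only [and_comm]

/-- The fraction field. -/
abbrev KK : Type := FractionRing (ZMod 2)[X]

instance instCharKK : CharP KK 2 :=
  charP_of_injective_algebraMap (IsFractionRing.injective (ZMod 2)[X] KK) 2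

/-- The embedding. -/
noncomputable abbrev φK : (ZMod 2)[X] →+* KK := algebraMap _ _

theorem φK_inj : Function.Injective φK := IsFractionRing.injective (ZMod 2)[X] KK

instance : Infinite KK := Infinite.of_injective φK φK_inj

theorem det_map_ne_zero {m : ℕ} {P : Matrix (Fin m) (Fin m) (ZMod 2)[X]} :
    (P.map φK).det ≠ 0 ↔ P.det ≠ 0 := by
  have : (P.map φK).det = φK P.det := (RingHom.map_det φK P).symm
  rw [this, ne_eq, ne_eq, map_eq_zero_iff _ φK_inj]

theorem altOn_mat (I : Graph) (y : List (ℕ × ℕ × ℕ)) (σ : List (ℕ × ℕ)) :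
    IsAltOn (GG I σ) ((matS I.encode I.n y σ).map φK) where
  symm a b := by
    rw [Matrix.map_apply, Matrix.map_apply]
    unfold matS
    rw [entS_symm]
  diag a := by
    rw [Matrix.map_apply]
    unfold matS entS
    rw [gadj_self]
    simp
  supp a b h := by
    change gadj I.encode I.n σ a b = true
    by_contra hcon
    apply h
    rw [Matrix.map_apply]
    unfold matS entS
    rw [if_neg hcon, map_zero]

/-- A change of the weight of an edge. -/
theorem mat_cons (I : Graph) (y : List (ℕ × ℕ × ℕ)) (σ : List (ℕ × ℕ)) {v w : Fin (I.n + I.n)}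
    (hvw : v < w) (hadj : (GG I σ).Adj v w) (k : ℕ) :
    matS I.encode I.n (((v : ℕ), (w : ℕ), k) :: y) σ =
      upd (matS I.encode I.n y σ) v w (X ^ k) := by
  ext1 a b
  unfold matS upd
  have hlt : (v : ℕ) < w := hvw
  by_cases h : (a = v ∧ b = w) ∨ (a = w ∧ b = v)
  · rw [if_pos h]
    have h1 : gadj I.encode I.n σ a b = true := by
      rcases h with ⟨rfl, rfl⟩ | ⟨rfl, rfl⟩
      · exact hadj
      · exact hadj.symm
    have h2 : min (a : ℕ) b = v ∧ max (a : ℕ) b = w := by
      rcases h with ⟨rfl, rfl⟩ | ⟨rfl, rfl⟩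
      · exact ⟨min_eq_left hlt.le, max_eq_right hlt.le⟩
      · exact ⟨min_eq_right hlt.le, max_eq_left hlt.le⟩
    unfold entS lk
    rw [if_pos h1, h2.1, h2.2]
    simp
  · rw [if_neg h]
    have h2 : ¬ ((v : ℕ) = min (a : ℕ) b ∧ (w : ℕ) = max (a : ℕ) b) := by
      rintro ⟨h3, h4⟩
      apply h
      rcases le_total (a : ℕ) b with h5 | h5
      · rw [min_eq_left h5] at h3
        rw [max_eq_right h5] at h4
        left
        exact ⟨Fin.ext h3.symm, Fin.ext h4.symm⟩
      · rw [min_eq_right h5] at h3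
        rw [max_eq_left h5] at h4
        right
        exact ⟨Fin.ext h4.symm, Fin.ext h3.symm⟩
    have h3 : lk (((v : ℕ), (w : ℕ), k) :: y) a b = lk y a b := by
      unfold lk
      rw [List.find?_cons_of_neg]
      simpa using h2
    unfold entS
    rw [h3]

end Pool.Agent.Lib.MP_0c183c_P9A
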