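import Pool.Agent.Lib.MP_0c183c_P9A.Pair

/-! # The final state of the search is stuck -/

set_option autoImplicit false

namespace Pool.Agent.Lib.MP_0c183c_P9A

open Pool.Agent.Lib.PolyTree Pool.Agent.Lib.FOLFP Matrix Finset Polynomial
open Pool.Agent.Lib.MP_0c183c_h75B (IsAltOn Stuck)

theorem upd_map {m : ℕ} {R R' : Type} [CommRing R] [CommRing R'] (φ : R →+* R')
    (A : Matrix (Fin m) (Fin m) R) (v w : Fin m) (τ : R) :
    (upd A v w τ).map φ = upd (A.map φ) v w (φ τ) := by
  ext a b
  rw [Matrix.map_apply]
  unfold upd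
  split_ifs <;> simp

theorem upd_comm {m : ℕ} {R : Type} (A : Matrix (Fin m) (Fin m) R) (v w : Fin m) (τ : R) :
    upd A v w τ = upd A w v τ := by
  ext a b
  unfold upd
  simp only [or_comm]

theorem upd_self {m : ℕ} {R : Type} (A : Matrix (Fin m) (Fin m) R) (hs : ∀ a b, A a b = A b a)
    (v w : Fin m) : upd A v w (A v w) = A := by
  ext a b
  unfold upd
  split_ifs with h
  · rcases h with ⟨rfl, rfl⟩ | ⟨rfl, rfl⟩
    · rfl
    · exact hs _ _
  · rfl

/-- The determinant of a test as a polynomial in the value of an edge. -/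
noncomputable def qp {m : ℕ} (A : Matrix (Fin m) (Fin m) KK) (v w : Fin m) (l : List (ℕ × ℕ)) :
    KK[X] := (repS l (upd (A.map C) v w X)).det

theorem qp_eval {m : ℕ} (A : Matrix (Fin m) (Fin m) KK) (v w : Fin m) (l : List (ℕ × ℕ))
    (τ : KK) : (qp A v w l).eval τ = (repS l (upd A v w τ)).det := by
  unfold qp
  rw [← Polynomial.coe_evalRingHom, RingHom.map_det, RingHom.mapMatrix_apply, repS_map, upd_map]
  congr 3
  · ext a b
    simp
  · simp

theorem qp_natDegree {m : ℕ} (A : Matrix (Fin m) (Fin m) KK) (v w : Fin m)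
    (l : List (ℕ × ℕ)) : (qp A v w l).natDegree ≤ m := by
  unfold qp
  refine (natDegree_det_le (d := 1) _ ?_).trans (by simp)
  intro a b
  unfold repS
  cases l.find? fun p => decide (p.2 = (a : ℕ)) with
  | none =>
    rw [Option.elim_none]
    unfold upd
    split_ifs
    · exact natDegree_X_le
    · simp
  | some p =>
    rw [Option.elim_some]
    split_ifs <;> simp

variable (c : ℕ) (I : Graph)

theorem stuck_run (hn : 1 < I.n) :
    Stuck (GG I (run c I.encode).2) (((stM I (run c I.encode)).map φK)⁻¹) c := by
  obtain ⟨hsm, hdet0⟩ := inv_run c I hn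
  obtain ⟨hfix, -⟩ := run_fixed c I.encode
  set st := run c I.encode with hst
  set A := (stM I st).map φK with hAdef
  have hdet : A.det ≠ 0 := det_map_ne_zero.2 hdet0
  have hAP : A * A⁻¹ = 1 := Matrix.mul_nonsing_inv _ (isUnit_iff_ne_zero.2 hdet)
  have hon : IsAltOn (GG I st.2) A := altOn_mat I st.1 st.2
  -- the values
  set M := MM (I.n + I.n) (tests c I.n).length with hM
  have key : ∀ v w : Fin (I.n + I.n), v < w → (GG I st.2).Adj v w → ∀ l ∈ tests c I.n,
      (repS l A).det = 0 → ∀ τ : KK, (repS l (upd A v w τ)).det = 0 := by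
    intro v w hvw hadj l₀ hl₀ h0 τ
    rw [← qp_eval]
    have hq0 : qp A v w l₀ = 0 := by
      by_contra hne
      have hφ : Function.Injective fun k : ℕ => φK (X ^ k) := by
        intro i j hij
        have h1 := φK_inj hij
        have h2 := congrArg Polynomial.natDegree h1
        rwa [natDegree_X_pow, natDegree_X_pow] at h2
      obtain ⟨τ, hτ, hgood⟩ := exists_good (tests c I.n) (qp A v w) (m := I.n + I.n)
        (fun l _ => qp_natDegree A v w l) ((range M).image fun k => φK (X ^ k))
        (by rw [card_image_of_injective _ hφ, card_range, hM]; unfold MM; omega)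
      obtain ⟨k, hk, rfl⟩ := mem_image.1 hτ
      have hmem : (((v : ℕ), (w : ℕ), k) : ℕ × ℕ × ℕ) ∈ cnd c I.encode st := by
        rw [mem_cnd]
        exact ⟨hvw, w.2, hadj, mem_range.1 hk⟩
      have hsm' : Small M (((v : ℕ), (w : ℕ), k) :: st.1) := by
        intro q hq
        rcases List.mem_cons.1 hq with rfl | hq
        · exact mem_range.1 hk
        · exact hsm q hq
      have hmat := mat_cons I st.1 st.2 hvw hadj k
      have hnz : ∀ l, nzT (DD (I.n + I.n) (tests c I.n).length) (I.n + I.n)
          (matL (DD (I.n + I.n) (tests c I.n).length) I.encode I.n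
            (((v : ℕ), (w : ℕ), k) :: st.1) st.2) l = true ↔
          (qp A v w l).eval (φK (X ^ k)) ≠ 0 := by
        intro l
        rw [nz_iff c I hn hsm' l, hmat, qp_eval, ← det_map_ne_zero, repS_map, upd_map]
      have hnz0 : ∀ l, nzT (DD (I.n + I.n) (tests c I.n).length) (I.n + I.n)
          (matL (DD (I.n + I.n) (tests c I.n).length) I.encode I.n st.1 st.2) l = true ↔
          (repS l A).det ≠ 0 := by
        intro l
        rw [nz_iff c I hn hsm l, ← det_map_ne_zero, repS_map]
      have hbad := hfix _ hmem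
      apply Bool.false_ne_true
      rw [← hbad]
      unfold better impr
      rw [nOf_encode, Bool.and_eq_true, List.all_eq_true, List.any_eq_true]
      refine ⟨fun l hl => ?_, l₀, hl₀, ?_⟩
      · by_cases h1 : (repS l A).det = 0
        · have h2 : nzT (DD (I.n + I.n) (tests c I.n).length) (I.n + I.n)
              (matL (DD (I.n + I.n) (tests c I.n).length) I.encode I.n st.1 st.2) l = false := by
            rw [Bool.eq_false_iff, ne_eq, hnz0, not_not]
            exact h1
          rw [h2]
          simp
        · have h2 : qp A v w l ≠ 0 := by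
            intro h3
            apply h1
            have h4 := qp_eval A v w l (A v w)
            rw [h3, eval_zero, upd_self A hon.symm] at h4
            exact h4.symm
          rw [(hnz l).2 (hgood l hl h2)]
          simp
      · have h2 : nzT (DD (I.n + I.n) (tests c I.n).length) (I.n + I.n)
              (matL (DD (I.n + I.n) (tests c I.n).length) I.encode I.n st.1 st.2) l₀ = false := by
            rw [Bool.eq_false_iff, ne_eq, hnz0, not_not]
            exact h0
        rw [h2, (hnz l₀).2 (hgood l₀ hl₀ hne)]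
        rfl
    rw [hq0, eval_zero]
  refine stuck_of_noimp hon hAP fun k hk x x' hx' h0 v w hadj τ => ?_
  rw [repF_eq x hx'] at h0 ⊢
  rcases lt_or_gt_of_ne hadj.ne with hvw | hvw
  · exact key v w hvw hadj _ (mem_tests hk x x') h0 τ
  · rw [upd_comm]
    exact key w v hvw hadj.symm _ (mem_tests hk x x') h0 τ

end Pool.Agent.Lib.MP_0c183c_P9A
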